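import Pool.Agent.H371R3.BE.Spec

/-!
# Sign conditions in the unit cube (task BD)
-/

set_option autoImplicit false

namespace Pool.Agent.H371R3.BE

open H612BB Pool.Agent.NPC Polynomial

theorem bd_sgR_pos {t : ℝ} : sgR t = 1 ↔ 0 < t := by
  unfold sgR
  split_ifs with h1 h2
  · simp [h1]
  · simp [h1]
  · simp [h1]

theorem bd_sgR_neg {t : ℝ} : sgR t = -1 ↔ t < 0 := by
  unfold sgR
  split_ifs with h1 h2
  · simp [not_lt.mpr h1.le]
  · simp [h2]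
  · simp [h2]

theorem bd_sgR_zero {t : ℝ} : sgR t = 0 ↔ t = 0 := by
  unfold sgR
  split_ifs with h1 h2
  · simp [h1.ne']
  · simp [h2.ne]
  · have : t = 0 := le_antisymm (not_lt.mp h1) (not_lt.mp h2)
    simp [this]

theorem bd_sgR_nonneg {t : ℝ} : 0 ≤ sgR t ↔ 0 ≤ t := by
  unfold sgR
  split_ifs with h1 h2
  · simp [h1.le]
  · simp only [not_le.mpr h2, iff_false]
    norm_num
  · simp [not_lt.mp h2]

theorem bd_sgR_cases (t : ℝ) : sgR t = 1 ∨ sgR t = -1 ∨ sgR t = 0 := by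
  unfold sgR
  split_ifs <;> simp

/-- the form `M F - 1` -/
def bdF (M : ℤ) (F : Form) : Form := (M * F.1, M * F.2.1, M * F.2.2.1, M * F.2.2.2 - 1)

theorem bdF_val (M : ℤ) (F : Form) (x y : ℝ) : (bdF M F).val x y = M * F.val x y - 1 := by
  simp only [Form.val, bdF]
  push_cast
  ring

theorem bd_PV_M (M : ℤ) : PV M 1 1 M :=
  ⟨X, natDegree_X_le, l1_X.le, eval_X⟩

theorem bd_PV_mul {M H a : ℤ} (ha : |a| ≤ H) : PV M 1 H (M * a) := by
  have h := PV.mul (by norm_num : (0 : ℤ) ≤ 1) (bd_PV_M M) (PV.const M 0 ha)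
  simpa using h

theorem bd_PV_F {M H : ℤ} {F : Form} (hF : FBd H F) :
    PV M 1 (H + 1) (bdF M F).1 ∧ PV M 1 (H + 1) (bdF M F).2.1 ∧
      PV M 1 (H + 1) (bdF M F).2.2.1 ∧ PV M 1 (H + 1) (bdF M F).2.2.2 := by
  obtain ⟨h1, h2, h3, h4⟩ := hF
  refine ⟨(bd_PV_mul h1).mono le_rfl (by linarith), (bd_PV_mul h2).mono le_rfl (by linarith),
    (bd_PV_mul h3).mono le_rfl (by linarith), ?_⟩
  exact (bd_PV_mul h4).sub (PV.const M 1 (by norm_num))

theorem bd_FBd_neg {H : ℤ} {F : Form} (hF : FBd H F) :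
    FBd H (-F.1, -F.2.1, -F.2.2.1, -F.2.2.2) := by
  obtain ⟨h1, h2, h3, h4⟩ := hF
  refine ⟨?_, ?_, ?_, ?_⟩ <;> simpa [abs_neg]

theorem bd_neg_val (F : Form) (x y : ℝ) :
    Form.val (-F.1, -F.2.1, -F.2.2.1, -F.2.2.2) x y = -F.val x y := by
  simp only [Form.val]
  push_cast
  ring

/-- the condition at a literal -/
def bdC (M : ℤ) (s : ℤ) (t : ℝ) : Prop :=
  (s = 0 → t = 0) ∧ (s = 1 → 0 ≤ M * t - 1) ∧ (s = -1 → 0 ≤ -(M * t) - 1)

theorem bdC_sgR {M s : ℤ} {t : ℝ} (hM : 1 ≤ M) (hs : s = 1 ∨ s = -1 ∨ s = 0) (h : bdC M s t) :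
    sgR t = s := by
  have hM' : (1 : ℝ) ≤ M := by exact_mod_cast hM
  obtain ⟨h0, h1, h2⟩ := h
  rcases hs with rfl | rfl | rfl
  · rw [bd_sgR_pos]
    have := h1 rfl
    by_contra hc
    nlinarith [not_lt.mp hc]
  · rw [bd_sgR_neg]
    have := h2 rfl
    by_contra hc
    nlinarith [not_lt.mp hc]
  · rw [bd_sgR_zero]
    exact h0 rfl

/-- the compact set -/
def bdK {N : ℕ} (M : ℤ) (Λ : List (Fin N × Fin N × Form × ℤ)) : Set (Fin N → ℝ) :=
  {z | (∀ i, -1 ≤ z i ∧ z i ≤ 1) ∧ ∀ l ∈ Λ, bdC M l.2.2.2 (l.2.2.1.val (z l.1) (z l.2.1))}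

theorem bd_cont {N : ℕ} (F : Form) (i j : Fin N) :
    Continuous fun z : Fin N → ℝ => F.val (z i) (z j) := by
  unfold Form.val
  fun_prop

theorem bd_closed_imp {Y : Type*} [TopologicalSpace Y] {p : Prop} {s : Set Y}
    (hs : IsClosed s) : IsClosed {z | p → z ∈ s} := by
  by_cases h : p
  · simpa [h] using hs
  · simp [h]

theorem bdK_compact {N : ℕ} (M : ℤ) (Λ : List (Fin N × Fin N × Form × ℤ)) :
    IsCompact (bdK M Λ) := by
  have h1 : IsCompact (Set.pi Set.univ fun _ : Fin N => Set.Icc (-1 : ℝ) 1) :=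
    isCompact_univ_pi fun _ => isCompact_Icc
  refine h1.of_isClosed_subset ?_ ?_
  · have : bdK M Λ = (⋂ i : Fin N, {z | -1 ≤ z i ∧ z i ≤ 1}) ∩
        ⋂ l ∈ Λ, {z | bdC M l.2.2.2 (l.2.2.1.val (z l.1) (z l.2.1))} := by
      ext z
      simp [bdK]
    rw [this]
    refine (isClosed_iInter fun i => ?_).inter (isClosed_iInter fun l => isClosed_iInter fun _ => ?_)
    · exact (isClosed_le continuous_const (continuous_apply i)).inter
        (isClosed_le (continuous_apply i) continuous_const)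
    · have hc := bd_cont l.2.2.1 l.1 l.2.1
      exact (bd_closed_imp (isClosed_eq hc continuous_const)).inter
        ((bd_closed_imp (isClosed_le continuous_const
          ((continuous_const.mul hc).sub continuous_const))).inter
        (bd_closed_imp (isClosed_le continuous_const
          ((continuous_const.mul hc).neg.sub continuous_const))))
  · intro z hz i _
    exact hz.1 i

theorem bdK_sign {N : ℕ} {M H : ℤ} (hH : 1 ≤ H) {Λ : List (Fin N × Fin N × Form × ℤ)}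
    (hΛ : ∀ l ∈ Λ, FBd H l.2.2.1) (z z' : Fin N → ℝ) (hz : z ∈ bdK M Λ)
    (h : ∀ (i j : Fin N) (F : Form), PV M 1 (H + 1) F.1 → PV M 1 (H + 1) F.2.1 →
      PV M 1 (H + 1) F.2.2.1 → PV M 1 (H + 1) F.2.2.2 →
      sgR (F.val (z i) (z j)) = sgR (F.val (z' i) (z' j))) : z' ∈ bdK M Λ := by
  have c0 : PV M 1 (H + 1) 0 := PV.const M 1 (by norm_num; linarith)
  have c1 : PV M 1 (H + 1) 1 := PV.const M 1 (by norm_num; linarith)
  have cm : PV M 1 (H + 1) (-1) := PV.const M 1 (by norm_num; linarith)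
  refine ⟨fun i => ⟨?_, ?_⟩, fun l hl => ?_⟩
  · have h1 := h i i (0, 1, 0, 1) c0 c1 c0 c1
    have h2 : 0 ≤ sgR (Form.val (0, 1, 0, 1) (z i) (z i)) := by
      rw [bd_sgR_nonneg]
      simp only [Form.val]
      push_cast
      linarith [(hz.1 i).1]
    rw [h1, bd_sgR_nonneg] at h2
    simp only [Form.val] at h2
    push_cast at h2
    linarith
  · have h1 := h i i (0, -1, 0, 1) c0 cm c0 c1
    have h2 : 0 ≤ sgR (Form.val (0, -1, 0, 1) (z i) (z i)) := by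
      rw [bd_sgR_nonneg]
      simp only [Form.val]
      push_cast
      linarith [(hz.1 i).2]
    rw [h1, bd_sgR_nonneg] at h2
    simp only [Form.val] at h2
    push_cast at h2
    linarith
  · have hF := hΛ l hl
    obtain ⟨k0, k1, k2⟩ := hz.2 l hl
    refine ⟨fun hs => ?_, fun hs => ?_, fun hs => ?_⟩
    · have h1 := h l.1 l.2.1 l.2.2.1 (PV.const M 1 (by linarith [hF.1]))
        (PV.const M 1 (by linarith [hF.2.1])) (PV.const M 1 (by linarith [hF.2.2.1]))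
        (PV.const M 1 (by linarith [hF.2.2.2]))
      have h2 := bd_sgR_zero.mpr (k0 hs)
      rw [h1, bd_sgR_zero] at h2
      exact h2
    · obtain ⟨p1, p2, p3, p4⟩ := bd_PV_F (M := M) hF
      have h1 := h l.1 l.2.1 (bdF M l.2.2.1) p1 p2 p3 p4
      rw [bdF_val, bdF_val] at h1
      have h2 := bd_sgR_nonneg.mpr (k1 hs)
      rw [h1, bd_sgR_nonneg] at h2
      exact h2
    · obtain ⟨p1, p2, p3, p4⟩ := bd_PV_F (M := M) (bd_FBd_neg hF)
      have h1 := h l.1 l.2.1 (bdF M _) p1 p2 p3 p4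
      rw [bdF_val, bdF_val, bd_neg_val, bd_neg_val] at h1
      have h2 := bd_sgR_nonneg.mpr (k2 hs)
      rw [← mul_neg, h1, bd_sgR_nonneg] at h2
      linarith

/-- the slack parameter -/
theorem bd_exists_M {N : ℕ} (Λ : List (Fin N × Fin N × Form × ℤ)) (x : Fin N → ℝ) (T : ℤ) :
    ∃ M : ℤ, T ≤ M ∧ 1 ≤ M ∧ ∀ l ∈ Λ, l.2.2.1.val (x l.1) (x l.2.1) ≠ 0 →
      1 ≤ (M : ℝ) * |l.2.2.1.val (x l.1) (x l.2.1)| := by
  induction Λ with
  | nil => exact ⟨max T 1, le_max_left _ _, le_max_right _ _, by simp⟩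
  | cons a Λ ih =>
    obtain ⟨M, h1, h2, h3⟩ := ih
    set t := a.2.2.1.val (x a.1) (x a.2.1) with ht
    refine ⟨max M ⌈1 / |t|⌉, h1.trans (le_max_left _ _), h2.trans (le_max_left _ _), ?_⟩
    intro l hl hne
    rcases List.mem_cons.mp hl with rfl | hl
    · have h5 : 0 < |t| := abs_pos.mpr hne
      have h4 : 1 / |t| ≤ ((max M ⌈1 / |t|⌉ : ℤ) : ℝ) :=
        (Int.le_ceil _).trans (by exact_mod_cast le_max_right _ _)
      rw [← ht]
      exact (div_le_iff₀ h5).mp h4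
    · refine (h3 l hl hne).trans (mul_le_mul_of_nonneg_right ?_ (abs_nonneg _))
      exact_mod_cast le_max_left _ _

theorem bd_mem {N : ℕ} {M : ℤ} {Λ : List (Fin N × Fin N × Form × ℤ)} {x : Fin N → ℝ}
    (hx : ∀ i, |x i| ≤ 1) (hs : ∀ l ∈ Λ, sgR (l.2.2.1.val (x l.1) (x l.2.1)) = l.2.2.2)
    (hM : ∀ l ∈ Λ, l.2.2.1.val (x l.1) (x l.2.1) ≠ 0 →
      1 ≤ (M : ℝ) * |l.2.2.1.val (x l.1) (x l.2.1)|) : x ∈ bdK M Λ := by
  refine ⟨fun i => abs_le.mp (hx i), fun l hl => ⟨fun h => ?_, fun h => ?_, fun h => ?_⟩⟩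
  · rw [← hs l hl, bd_sgR_zero] at h
    exact h
  · rw [← hs l hl, bd_sgR_pos] at h
    have := hM l hl h.ne'
    rw [abs_of_pos h] at this
    linarith
  · rw [← hs l hl, bd_sgR_neg] at h
    have := hM l hl h.ne
    rw [abs_of_neg h] at this
    linarith

/-- the numerical bound -/
theorem bd_num (N H : ℕ) (hH : 1 ≤ H) :
    (5 * ((8 * (H + 1)) ^ (4 * N + 2)) ^ 2) *
      (2048 * H ^ 4 * (5 * ((8 * (H + 1)) ^ (4 * N + 2)) ^ 2) ^ 8) ^ (2 * (4 * N + 2)) ≤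
      W1 N H := by
  have e1 : 8 * (H + 1) ≤ 16 * H := by omega
  have h16 : 16 ≤ 16 * H := by omega
  have hB : 5 * ((8 * (H + 1)) ^ (4 * N + 2)) ^ 2 ≤ (16 * H) ^ (8 * N + 5) := by
    calc 5 * ((8 * (H + 1)) ^ (4 * N + 2)) ^ 2
        ≤ (16 * H) * ((16 * H) ^ (4 * N + 2)) ^ 2 :=
          Nat.mul_le_mul (by omega) (Nat.pow_le_pow_left (Nat.pow_le_pow_left e1 _) _)
      _ = (16 * H) ^ (8 * N + 5) := by
          rw [← pow_mul, ← pow_succ']
          congr 1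
          ring
  have hT : 2048 * H ^ 4 * (5 * ((8 * (H + 1)) ^ (4 * N + 2)) ^ 2) ^ 8 ≤
      (16 * H) ^ (64 * N + 44) := by
    calc 2048 * H ^ 4 * (5 * ((8 * (H + 1)) ^ (4 * N + 2)) ^ 2) ^ 8
        ≤ (16 * H) ^ 4 * ((16 * H) ^ (8 * N + 5)) ^ 8 := by
          refine Nat.mul_le_mul ?_ (Nat.pow_le_pow_left hB _)
          rw [mul_pow]
          exact Nat.mul_le_mul_right _ (by norm_num)
      _ = (16 * H) ^ (64 * N + 44) := by
          rw [← pow_mul, ← pow_add]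
          congr 1
          ring
  calc (5 * ((8 * (H + 1)) ^ (4 * N + 2)) ^ 2) *
      (2048 * H ^ 4 * (5 * ((8 * (H + 1)) ^ (4 * N + 2)) ^ 2) ^ 8) ^ (2 * (4 * N + 2))
      ≤ (16 * H) ^ (8 * N + 5) * ((16 * H) ^ (64 * N + 44)) ^ (2 * (4 * N + 2)) :=
        Nat.mul_le_mul hB (Nat.pow_le_pow_left hT _)
    _ = (16 * H) ^ (8 * N + 5 + (64 * N + 44) * (2 * (4 * N + 2))) := by
        rw [← pow_mul, ← pow_add]
    _ ≤ W1 N H := by
        unfold W1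
        refine Nat.pow_le_pow_right (by omega) ?_
        nlinarith

theorem bd_eval {P : ℤ[X]} {T : ℤ} {k : ℕ} {B : ℤ} {W : ℕ} (hT : 1 ≤ T)
    (hP : P.natDegree ≤ k ∧ l1 P ≤ B) (hW : B * T ^ k ≤ W) : |P.eval T| ≤ (W : ℤ) := by
  refine (abs_eval_le hT hP.1).trans (le_trans ?_ hW)
  exact mul_le_mul_of_nonneg_right hP.2 (pow_nonneg (by linarith) _)

theorem t_BD (pm : S_PM) (pc : S_PC) (ps : S_PS) (sg : S_SGN) : S_BD := by
  intro N H hH Λ hΛ x hx hs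
  have hH' : (1 : ℤ) ≤ (H : ℤ) := by exact_mod_cast hH
  set B1 : ℤ := (8 * ((H : ℤ) + 1)) ^ (4 * N + 2) with hB1
  have hB1' : 1 ≤ B1 := one_le_pow₀ (by linarith)
  set B : ℤ := 5 * B1 ^ 2 with hB
  have hB' : 1 ≤ B := by
    have : 1 ≤ B1 ^ 2 := one_le_pow₀ hB1'
    linarith
  set T : ℤ := 2048 * (H : ℤ) ^ 4 * B ^ 8 with hT
  have hT' : 1 ≤ T := by
    have h1 : 1 ≤ (H : ℤ) ^ 4 := one_le_pow₀ hH'
    have h2 : 1 ≤ B ^ 8 := one_le_pow₀ hB'
    have h3 : 1 ≤ (H : ℤ) ^ 4 * B ^ 8 := by nlinarith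
    rw [hT, mul_assoc]
    linarith
  obtain ⟨M, hM1, hM2, hM3⟩ := bd_exists_M Λ x T
  have hxK : x ∈ bdK M Λ := bd_mem hx hs hM3
  obtain ⟨z, hzK, hz⟩ := pm N (bdK M Λ) M (H + 1) (by linarith) (bdK_compact M Λ) ⟨x, hxK⟩
    (bdK_sign hH' hΛ)
  choose α hα1 hα2 hα3 hα4 using fun i => pc M (4 * N + 2) B1 (z i) hB1' (hz i)
  have hsc : ∀ l ∈ Λ, l.2.2.2 = 1 ∨ l.2.2.2 = -1 ∨ l.2.2.2 = 0 := fun l hl => by
    rw [← hs l hl]
    exact bd_sgR_cases _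
  have key : ∀ i j (F : Form), FBd H F → 0 ≤ (α i).2.1.eval T ∧
      (((α i).at M).2.2 ≠ 0 → ((α i).at T).2.2 ≠ 0) ∧
      fsg ((α i).at M) ((α j).at M) F = fsg ((α i).at T) ((α j).at T) F := fun i j F hF =>
    ps (2 * (4 * N + 2)) B H M T (α i) (α j) F hB' hH' (hα1 i) (hα1 j) hF (hα3 i) (hα3 j) hM1
      le_rfl
  have hF0 : FBd (H : ℤ) (0, 0, 0, 0) := by
    refine ⟨?_, ?_, ?_, ?_⟩ <;> simp
  have hne : ∀ i, ((α i).at T).2.2 ≠ 0 := fun i => (key i i _ hF0).2.1 (hα2 i)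
  refine ⟨fun i => (α i).at T, fun i => ?_, fun l hl => ?_⟩
  · have hW : B * T ^ (2 * (4 * N + 2)) ≤ (W1 N H : ℕ) := by
      have := bd_num N H hH
      rw [hT, hB, hB1]
      exact_mod_cast this
    obtain ⟨b1, b2, b3⟩ := hα1 i
    refine ⟨bd_eval hT' b1 hW, ?_, bd_eval hT' b3 hW, hne i⟩
    have h4 := bd_eval hT' b2 hW
    have h5 := (key i i _ hF0).1
    have h6 : (((α i).2.1.eval T).toNat : ℤ) ≤ (W1 N H : ℕ) := by
      rw [Int.toNat_of_nonneg h5]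
      exact (le_abs_self _).trans h4
    exact_mod_cast h6
  · have h1 := (key l.1 l.2.1 _ (hΛ l hl)).2.2
    rw [sg _ _ _ (hα2 _) (hα2 _), sg _ _ _ (hne _) (hne _), hα4, hα4] at h1
    rw [← h1]
    exact bdC_sgR hM2 (hsc l hl) (hzK.2 l hl)

end Pool.Agent.H371R3.BE
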