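import Pool.Agent.H371R3.BE.Spec

/-! Task CM: completeness of the verifier. -/

set_option autoImplicit false

namespace Pool.Agent.H371R3.BE

open H612BB Pool.Agent.NPC Polynomial

theorem cm_look (C : Cert) (v : ℕ) (a : H612BB.Num) (h1 : ∀ p ∈ C, p.1 = v → p.2 = a)
    (h2 : ∃ p ∈ C, p.1 = v) : look C v = a := by
  unfold look
  rcases hC : C.filter (fun p => decide (p.1 = v)) with _ | ⟨p, t⟩
  · exfalso
    obtain ⟨p, hp, hpv⟩ := h2
    have : p ∈ C.filter (fun p => decide (p.1 = v)) := List.mem_filter.2 ⟨hp, by simp [hpv]⟩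
    rw [hC] at this
    simp at this
  · have hp : p ∈ C.filter (fun p => decide (p.1 = v)) := by rw [hC]; exact List.mem_cons_self
    rw [List.mem_filter] at hp
    rw [hC]
    exact h1 p hp.1 (of_decide_eq_true hp.2)

theorem cm_W2 {N N' H : ℕ} (hH : 1 ≤ H) (h : N ≤ N') : W2 N H ≤ W2 N' H := by
  unfold W2 W1
  refine Nat.mul_le_mul_left _ (Nat.pow_le_pow_left (Nat.pow_le_pow_right (by omega) ?_) 4)
  exact Nat.mul_le_mul (by omega) (by omega)

theorem t_CM (ub : S_UB) (sg : S_SGN) : S_CM := by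
  intro φ H hH hF hsat
  obtain ⟨x, hx⟩ := hsat
  -- the chosen literals
  obtain ⟨Lt, hLlen, hL1, hL2⟩ : ∃ Lt : List BLit, Lt.length = φ.length ∧
      (∀ l ∈ Lt, Ok x l ∧ ∃ c ∈ φ, l ∈ c) ∧ ∀ c ∈ φ, ∃ l ∈ Lt, l ∈ c := by
    choose! g hg using hx
    refine ⟨φ.map g, by simp, ?_, ?_⟩
    · intro l hl
      obtain ⟨c, hc, rfl⟩ := List.mem_map.1 hl
      exact ⟨(hg c hc).2, c, hc, (hg c hc).1⟩
    · intro c hc
      exact ⟨g c, List.mem_map.2 ⟨c, hc, rfl⟩, (hg c hc).1⟩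
  -- the variables
  obtain ⟨V, hVnd, hVlen, hV1, hV2, hV3⟩ : ∃ V : List ℕ, V.Nodup ∧ V.length ≤ 2 * φ.length ∧
      (∀ l ∈ Lt, l.1.1 ∈ V) ∧ (∀ l ∈ Lt, l.1.2 ∈ V) ∧
      ∀ v ∈ V, ∃ l ∈ Lt, v = l.1.1 ∨ v = l.1.2 := by
    refine ⟨((Lt.map (fun l => l.1.1)) ++ (Lt.map (fun l => l.1.2))).dedup, List.nodup_dedup _,
      ?_, ?_, ?_, ?_⟩
    · refine (List.Sublist.length_le (List.dedup_sublist _)).trans ?_
      simp only [List.length_append, List.length_map, hLlen]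
      omega
    · intro l hl
      rw [List.mem_dedup, List.mem_append]
      exact Or.inl (List.mem_map.2 ⟨l, hl, rfl⟩)
    · intro l hl
      rw [List.mem_dedup, List.mem_append]
      exact Or.inr (List.mem_map.2 ⟨l, hl, rfl⟩)
    · intro v hv
      rw [List.mem_dedup, List.mem_append] at hv
      rcases hv with hv | hv
      · obtain ⟨l, hl, rfl⟩ := List.mem_map.1 hv
        exact ⟨l, hl, Or.inl rfl⟩
      · obtain ⟨l, hl, rfl⟩ := List.mem_map.1 hv
        exact ⟨l, hl, Or.inr rfl⟩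
  -- indices
  have hidx : ∀ v ∈ V, ∃ i : Fin V.length, V.get i = v := by
    intro v hv
    obtain ⟨n, hn, h⟩ := List.getElem_of_mem hv
    exact ⟨⟨n, hn⟩, by simpa using h⟩
  have hi1 : ∀ l : {l // l ∈ Lt}, ∃ i : Fin V.length, V.get i = l.1.1.1 :=
    fun l => hidx _ (hV1 l.1 l.2)
  have hi2 : ∀ l : {l // l ∈ Lt}, ∃ i : Fin V.length, V.get i = l.1.1.2 :=
    fun l => hidx _ (hV2 l.1 l.2)
  choose i1 hi1 using hi1
  choose i2 hi2 using hi2
  obtain ⟨α, hα1, hα2⟩ := ub V.length H hH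
    (Lt.attach.map (fun l => (i1 l, i2 l, l.1.2.1, l.1.2.2))) (by
      intro l hl
      obtain ⟨l', _, rfl⟩ := List.mem_map.1 hl
      obtain ⟨c, hc, hlc⟩ := (hL1 l'.1 l'.2).2
      exact hF c hc l'.1 hlc) (fun i => x (V.get i)) (by
      intro l hl
      obtain ⟨l', _, rfl⟩ := List.mem_map.1 hl
      have h := (hL1 l'.1 l'.2).1
      simp only
      rw [hi1 l', hi2 l']
      exact h)
  have hinj : ∀ i j : Fin V.length, V.get i = V.get j → i = j :=
    fun i j h => (List.nodup_iff_injective_get.1 hVnd) h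
  have hlook : ∀ i : Fin V.length, look (List.ofFn (fun i => (V.get i, α i))) (V.get i) = α i := by
    intro i
    apply cm_look
    · intro p hp hpv
      obtain ⟨j, rfl⟩ := (List.mem_ofFn' _ _).1 hp
      simp only at hpv ⊢
      rw [hinj j i hpv]
    · exact ⟨(V.get i, α i), (List.mem_ofFn' _ _).2 ⟨i, rfl⟩, rfl⟩
  refine ⟨List.ofFn (fun i => (V.get i, α i)), ?_, ?_, ?_⟩
  · unfold verB
    simp only [Bool.and_eq_true, List.all_eq_true, List.any_eq_true]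
    constructor
    · intro p hp
      obtain ⟨j, rfl⟩ := (List.mem_ofFn' _ _).1 hp
      simp only [Bool.not_eq_true', decide_eq_false_iff_not]
      exact (hα1 j).2.2.2
    · intro c hc
      obtain ⟨l, hl, hlc⟩ := hL2 c hc
      refine ⟨l, hlc, ?_⟩
      unfold litB
      rw [decide_eq_true_eq]
      have e1 : l.1.1 = V.get (i1 ⟨l, hl⟩) := (hi1 ⟨l, hl⟩).symm
      have e2 : l.1.2 = V.get (i2 ⟨l, hl⟩) := (hi2 ⟨l, hl⟩).symm
      rw [e1, e2, hlook, hlook, sg _ _ _ (hα1 _).2.2.2 (hα1 _).2.2.2]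
      exact hα2 (i1 ⟨l, hl⟩, i2 ⟨l, hl⟩, l.2.1, l.2.2)
        (List.mem_map.2 ⟨⟨l, hl⟩, List.mem_attach _ _, rfl⟩)
  · rw [List.length_ofFn]; exact hVlen
  · intro p hp
    obtain ⟨j, rfl⟩ := (List.mem_ofFn' _ _).1 hp
    simp only
    constructor
    · obtain ⟨a1, a2, a3, a4⟩ := hα1 j
      have hW : ((W2 V.length H : ℕ) : ℤ) ≤ ((W2 (2 * φ.length) H : ℕ) : ℤ) := by
        exact_mod_cast cm_W2 hH hVlen
      exact ⟨a1.trans hW, a2.trans (cm_W2 hH hVlen), a3.trans hW, a4⟩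
    · obtain ⟨l, hl, h⟩ := hV3 (V.get j) (List.get_mem V j)
      obtain ⟨c, hc, hlc⟩ := (hL1 l hl).2
      exact ⟨c, hc, l, hlc, h⟩

end Pool.Agent.H371R3.BE
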