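import Pool.Agent.H612.BB.Stubs
import Pool.Agent.NPC.Dec
import Pool.Agent.ER.Dec

/-!
# Two-variable bilinear systems: definitions

The objects `Form`, `Form.val`, `sgR`, `Num`, `Num.val`, `fsg`, `NBd`, `QRoot`, `Mob` are those of
`Pool.Agent.H612.BB`.
-/

set_option autoImplicit false

namespace Pool.Agent.H371R3.BE

open H612BB Pool.Agent.NPC Polynomial

/-- A literal `((i, j), F, s)`: the sign of `A x_i x_j + B x_i + C x_j + D` is `s`. -/
abbrev BLit : Type := (ℕ × ℕ) × Form × ℤ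

/-- the literal holds at the point `x` -/
def Ok (x : ℕ → ℝ) (l : BLit) : Prop := sgR (l.2.1.val (x l.1.1) (x l.1.2)) = l.2.2

/-- conjunctions of disjunctions of literals -/
abbrev Inst : Type := List (List BLit)

/-- There is a real solution. -/
def BSat (φ : Inst) : Prop := ∃ x : ℕ → ℝ, ∀ c ∈ φ, ∃ l ∈ c, Ok x l

/-! ### polynomials in the slack parameter -/

/-- sum of the absolute values of the coefficients -/
noncomputable def l1 (P : ℤ[X]) : ℤ := ∑ i ∈ P.support, |P.coeff i|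

/-- `a` is the value at `M` of an integer polynomial of degree at most `k` and norm at most `h` -/
def PV (M : ℤ) (k : ℕ) (h : ℤ) (a : ℤ) : Prop :=
  ∃ P : ℤ[X], P.natDegree ≤ k ∧ l1 P ≤ h ∧ P.eval M = a

/-- `z` is a root of a nonzero polynomial of degree at most 2 whose coefficients are such values -/
def PRoot (M : ℤ) (k : ℕ) (B : ℤ) (z : ℝ) : Prop :=
  ∃ a b c : ℤ, (a ≠ 0 ∨ b ≠ 0 ∨ c ≠ 0) ∧ PV M k B a ∧ PV M k B b ∧ PV M k B c ∧
    (a : ℝ) * z ^ 2 + b * z + c = 0

/-- Moebius relation whose coefficients are such values -/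
def PMob (M : ℤ) (k : ℕ) (h : ℤ) (s t : ℝ) : Prop :=
  ∃ p q r w : ℤ, PV M k h p ∧ PV M k h q ∧ PV M k h r ∧ PV M k h w ∧ p * w - q * r ≠ 0 ∧
    (r : ℝ) * s + w ≠ 0 ∧ t * ((r : ℝ) * s + w) = p * s + q

/-- codes with polynomial entries -/
abbrev PNum : Type := ℤ[X] × ℤ[X] × ℤ[X]

/-- the code at the parameter `M` -/
noncomputable def PNum.at (α : PNum) (M : ℤ) : H612BB.Num :=
  (α.1.eval M, (α.2.1.eval M).toNat, α.2.2.eval M)

/-- degrees at most `k` and norms at most `B` -/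
def PNum.Bd (α : PNum) (k : ℕ) (B : ℤ) : Prop :=
  (α.1.natDegree ≤ k ∧ l1 α.1 ≤ B) ∧ (α.2.1.natDegree ≤ k ∧ l1 α.2.1 ≤ B) ∧
    (α.2.2.natDegree ≤ k ∧ l1 α.2.2 ≤ B)

/-- the bound for the codes in the bounded case -/
def W1 (N H : ℕ) : ℕ := (16 * H) ^ ((64 * N + 64) * (8 * N + 6))

/-- the bound for the codes -/
def W2 (N H : ℕ) : ℕ := 20 * (W1 N H) ^ 4

/-- coefficients at most `H` -/
def FBd (H : ℤ) (F : Form) : Prop := |F.1| ≤ H ∧ |F.2.1| ≤ H ∧ |F.2.2.1| ≤ H ∧ |F.2.2.2| ≤ H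

/-! ### the verifier -/

/-- certificates: lists of variables with codes of their values -/
abbrev Cert : Type := List (ℕ × H612BB.Num)

/-- the code of the value of the variable `i` -/
def look (C : Cert) (i : ℕ) : H612BB.Num :=
  (((C.filter (fun p => decide (p.1 = i))).head?).getD (0, 0, 0, 1)).2

/-- test of a literal -/
def litB (C : Cert) (l : BLit) : Bool :=
  decide (fsg (look C l.1.1) (look C l.1.2) l.2.1 = l.2.2)

/-- the verifier -/
def verB (z : Inst × Cert) : Bool :=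
  z.2.all (fun p => !decide (p.2.2.2 = 0)) && z.1.all (fun c => c.any (fun l => litB z.2 l))

end Pool.Agent.H371R3.BE
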