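import Pool.Agent.H371R3.BE.Spec
import Pool.Agent.NPC.Sat

/-!
# Task HD: hardness
-/

set_option autoImplicit false

namespace Pool.Agent.H371R3.BE

open H612BB Pool.Agent.NPC

/-- the literal for a Boolean literal -/
def hd_lit (l : Bool × ℕ) : BLit := ((l.2, l.2), (0, 1, 0, 0), if l.1 = true then 1 else -1)

theorem hd_val (t : ℝ) : Form.val (0, 1, 0, 0) t t = t := by
  simp [Form.val]

theorem hd_correct (φ : List (List (Bool × ℕ))) : SAT φ ↔ BSat (φ.map (fun c => c.map hd_lit)) := by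
  constructor
  · rintro ⟨τ, h⟩
    refine ⟨fun v => if τ v = true then 1 else -1, ?_⟩
    intro c hc
    obtain ⟨c', hc', rfl⟩ := List.mem_map.1 hc
    obtain ⟨l, hl, hτ⟩ := h c' hc'
    refine ⟨hd_lit l, List.mem_map_of_mem hl, ?_⟩
    unfold Ok hd_lit
    simp only
    rw [hd_val]
    rw [← hτ]
    cases τ l.2 <;> simp [sgR]
  · rintro ⟨x, h⟩
    refine ⟨fun v => decide (0 < x v), ?_⟩
    intro c hc
    obtain ⟨l', hl', hok⟩ := h _ (List.mem_map_of_mem hc)
    obtain ⟨l, hl, rfl⟩ := List.mem_map.1 hl'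
    refine ⟨l, hl, ?_⟩
    unfold Ok hd_lit at hok
    simp only at hok
    rw [hd_val] at hok
    obtain ⟨b, v⟩ := l
    cases b
    · simp only [Bool.false_eq_true, if_false] at hok
      simp only [decide_eq_false_iff_not, not_lt]
      by_contra hn
      rw [not_le] at hn
      unfold sgR at hok
      rw [if_pos hn] at hok
      omega
    · simp only [if_true] at hok
      simp only [decide_eq_true_eq]
      by_contra hn
      unfold sgR at hok
      rw [if_neg hn] at hok
      split_ifs at hok <;> omega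

theorem t_HD : S_HD := by
  refine NPHardP.of_poly npHard_SAT (f := fun φ => φ.map (fun c => c.map hd_lit)) ?_ hd_correct
  refine Pool.Agent.NPC.Poly.map (F := fun (_ : List (List (Bool × ℕ))) (c : List (Bool × ℕ)) => c.map hd_lit)
    Pool.Agent.NPC.Poly.id ?_
  refine Pool.Agent.NPC.Poly.map (F := fun (_ : List (List (Bool × ℕ)) × List (Bool × ℕ)) (l : Bool × ℕ) =>
    hd_lit l) (Poly.snd Poly.id) ?_
  have h1 : Poly (fun a : (List (List (Bool × ℕ)) × List (Bool × ℕ)) × (Bool × ℕ) => a.2.2) :=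
    Poly.snd (Poly.snd Poly.id)
  have h2 : Poly (fun a : (List (List (Bool × ℕ)) × List (Bool × ℕ)) × (Bool × ℕ) => a.2.1) :=
    Poly.fst (Poly.snd Poly.id)
  have h3 : NPC.Poly (fun a : (List (List (Bool × ℕ)) × List (Bool × ℕ)) × (Bool × ℕ) =>
      if a.2.1 = true then (1 : ℤ) else -1) :=
    (NPC.Poly.cond h2 (NPC.Poly.const (1 : ℤ)) (NPC.Poly.const (-1 : ℤ))).congr fun a => by
      cases a.2.1 <;> rfl
  exact NPC.Poly.pair (NPC.Poly.pair h1 h1) (NPC.Poly.pair (NPC.Poly.const _) h3)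

end Pool.Agent.H371R3.BE
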