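import Pool.Agent.H371R3.BE.Defs

/-!
# Integer polynomials with bounded norms (task LIB: replace the sorries)
-/

set_option autoImplicit false

namespace Pool.Agent.H371R3.BE

open H612BB Pool.Agent.NPC Polynomial

theorem l1_eq_sum (P : ℤ[X]) (s : Finset ℕ) (h : P.support ⊆ s) :
    l1 P = ∑ i ∈ s, |P.coeff i| := by
  unfold l1
  refine Finset.sum_subset h fun i _ hi => ?_
  rw [notMem_support_iff.1 hi, abs_zero]

theorem l1_nonneg (P : ℤ[X]) : 0 ≤ l1 P := by
  unfold l1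
  exact Finset.sum_nonneg fun i _ => abs_nonneg _

theorem l1_add (P Q : ℤ[X]) : l1 (P + Q) ≤ l1 P + l1 Q := by
  classical
  rw [l1_eq_sum (P + Q) (P.support ∪ Q.support) support_add,
    l1_eq_sum P (P.support ∪ Q.support) Finset.subset_union_left,
    l1_eq_sum Q (P.support ∪ Q.support) Finset.subset_union_right, ← Finset.sum_add_distrib]
  refine Finset.sum_le_sum fun i _ => ?_
  rw [coeff_add]
  exact abs_add_le _ _

theorem l1_neg (P : ℤ[X]) : l1 (-P) = l1 P := by
  unfold l1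
  rw [support_neg]
  refine Finset.sum_congr rfl fun i _ => ?_
  rw [coeff_neg, abs_neg]

theorem l1_sum {ι : Type} (s : Finset ι) (f : ι → ℤ[X]) :
    l1 (∑ i ∈ s, f i) ≤ ∑ i ∈ s, l1 (f i) := by
  classical
  induction s using Finset.induction_on with
  | empty =>
    rw [Finset.sum_empty, Finset.sum_empty]
    unfold l1
    simp
  | insert a s ha ih =>
    rw [Finset.sum_insert ha, Finset.sum_insert ha]
    exact (l1_add _ _).trans (by linarith)

theorem coeff_mono_mul (n : ℕ) (a : ℤ) (Q : ℤ[X]) (i : ℕ) :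
    (monomial n a * Q).coeff i = if n ≤ i then a * Q.coeff (i - n) else 0 := by
  rw [← C_mul_X_pow_eq_monomial, mul_assoc, coeff_C_mul, coeff_X_pow_mul']
  split_ifs
  · rfl
  · rw [mul_zero]

theorem l1_monomial_mul (n : ℕ) (a : ℤ) (Q : ℤ[X]) : l1 (monomial n a * Q) = |a| * l1 Q := by
  classical
  have hs : (monomial n a * Q).support ⊆ Q.support.image (fun i => i + n) := by
    intro i hi
    rw [mem_support_iff, coeff_mono_mul] at hi
    split_ifs at hi with h
    · rw [Finset.mem_image]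
      refine ⟨i - n, ?_, Nat.sub_add_cancel h⟩
      rw [mem_support_iff]
      exact right_ne_zero_of_mul hi
    · exact absurd rfl hi
  rw [l1_eq_sum _ _ hs, Finset.sum_image (fun i _ j _ h => Nat.add_right_cancel h)]
  unfold l1
  rw [Finset.mul_sum]
  refine Finset.sum_congr rfl fun i _ => ?_
  rw [coeff_mono_mul, if_pos (Nat.le_add_left n i), Nat.add_sub_cancel, abs_mul]

theorem l1_mul (P Q : ℤ[X]) : l1 (P * Q) ≤ l1 P * l1 Q := by
  have h : P * Q = ∑ i ∈ P.support, monomial i (P.coeff i) * Q := by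
    rw [← Finset.sum_mul, ← P.as_sum_support]
  rw [h]
  refine (l1_sum _ _).trans (le_of_eq ?_)
  have h2 : l1 P = ∑ i ∈ P.support, |P.coeff i| := rfl
  rw [h2, Finset.sum_mul]
  exact Finset.sum_congr rfl fun i _ => l1_monomial_mul _ _ _

theorem l1_C (a : ℤ) : l1 (C a) = |a| := by
  rw [l1_eq_sum (C a) {0} (support_C_subset a), Finset.sum_singleton, coeff_C_zero]

theorem l1_X : l1 (X : ℤ[X]) = 1 := by
  rw [l1_eq_sum (X : ℤ[X]) {1} (by rw [support_X]), Finset.sum_singleton, coeff_X_one, abs_one]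

theorem abs_eval_gen {P : ℤ[X]} {M N : ℤ} {k : ℕ} (hN : 1 ≤ N) (hM : |M| ≤ N)
    (hk : P.natDegree ≤ k) : |P.eval M| ≤ l1 P * N ^ k := by
  rw [eval_eq_sum_range' (Nat.lt_succ_of_le hk)]
  have hs : P.support ⊆ Finset.range (k + 1) := by
    intro i hi
    rw [Finset.mem_range]
    exact Nat.lt_succ_of_le ((le_natDegree_of_mem_supp i hi).trans hk)
  rw [l1_eq_sum P _ hs, Finset.sum_mul]
  refine (Finset.abs_sum_le_sum_abs _ _).trans (Finset.sum_le_sum fun i hi => ?_)
  rw [abs_mul, abs_pow]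
  refine mul_le_mul_of_nonneg_left ?_ (abs_nonneg _)
  exact (pow_le_pow_left₀ (abs_nonneg _) hM i).trans
    (pow_le_pow_right₀ hN (Nat.le_of_lt_succ (Finset.mem_range.1 hi)))

theorem abs_eval_le {P : ℤ[X]} {M : ℤ} {k : ℕ} (hM : 1 ≤ M) (hk : P.natDegree ≤ k) :
    |P.eval M| ≤ l1 P * M ^ k :=
  abs_eval_gen hM (le_of_eq (abs_of_nonneg (by omega))) hk

theorem l1_erase {P : ℤ[X]} : l1 P.eraseLead + |P.leadingCoeff| = l1 P := by
  classical
  by_cases hP : P = 0
  · rw [hP]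
    unfold l1
    simp
  · have h1 : l1 P.eraseLead = ∑ i ∈ P.support.erase P.natDegree, |P.coeff i| := by
      have h0 : l1 P.eraseLead = ∑ i ∈ P.eraseLead.support, |P.eraseLead.coeff i| := rfl
      rw [h0, eraseLead_support]
      refine Finset.sum_congr rfl fun i hi => ?_
      rw [eraseLead_coeff_of_ne i (Finset.ne_of_mem_erase hi)]
    rw [h1]
    unfold l1
    rw [← Finset.sum_erase_add _ _ (natDegree_mem_support_of_nonzero hP)]
    rfl

theorem sign_eval_lead {P : ℤ[X]} {M : ℤ} (h : l1 P < M) :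
    Int.sign (P.eval M) = Int.sign P.leadingCoeff := by
  by_cases hP : P = 0
  · rw [hP, eval_zero, leadingCoeff_zero]
  have hM : 1 ≤ M := by
    have := l1_nonneg P
    omega
  have hc : P.leadingCoeff ≠ 0 := leadingCoeff_ne_zero.2 hP
  have hc1 : 1 ≤ |P.leadingCoeff| := Int.one_le_abs hc
  rcases Nat.eq_zero_or_pos P.natDegree with hd | hd
  · obtain ⟨c, hcP⟩ : ∃ c, P = C c := ⟨_, eq_C_of_natDegree_eq_zero hd⟩
    rw [hcP, eval_C, leadingCoeff_C]
  · have h1 : P.eval M = P.eraseLead.eval M + P.leadingCoeff * M ^ P.natDegree := by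
      conv_lhs => rw [← eraseLead_add_C_mul_X_pow P]
      rw [eval_add, eval_mul, eval_C, eval_pow, eval_X]
    have h2 : |P.eraseLead.eval M| ≤ l1 P.eraseLead * M ^ (P.natDegree - 1) :=
      abs_eval_le hM (eraseLead_natDegree_le P)
    have h3 := l1_erase (P := P)
    have hpos : (0 : ℤ) < M ^ (P.natDegree - 1) := pow_pos (by omega) _
    have h4 : |P.eraseLead.eval M| < |P.leadingCoeff| * M ^ P.natDegree := by
      have h5 : M ^ P.natDegree = M * M ^ (P.natDegree - 1) := by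
        rw [← pow_succ']
        congr 1
        omega
      rw [h5]
      have h6 : l1 P.eraseLead < M := by omega
      have h7 : l1 P.eraseLead * M ^ (P.natDegree - 1) < M * M ^ (P.natDegree - 1) :=
        mul_lt_mul_of_pos_right h6 hpos
      have h8 : (1 : ℤ) * (M * M ^ (P.natDegree - 1)) ≤
          |P.leadingCoeff| * (M * M ^ (P.natDegree - 1)) :=
        mul_le_mul_of_nonneg_right hc1 (mul_pos (by omega) hpos).le
      linarith
    rw [h1]
    have hMd : (0 : ℤ) < M ^ P.natDegree := pow_pos (by omega) _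
    obtain ⟨hl, hu⟩ := abs_lt.1 h4
    rcases lt_or_gt_of_ne hc with hneg | hpos'
    · rw [abs_of_neg hneg] at hl hu
      rw [Int.sign_eq_neg_one_of_neg hneg, Int.sign_eq_neg_one_of_neg]
      linarith
    · rw [abs_of_pos hpos'] at hl hu
      rw [Int.sign_eq_one_of_pos hpos', Int.sign_eq_one_of_pos]
      linarith

/-- for large parameters the sign of a polynomial is constant -/
theorem sign_eval {P : ℤ[X]} {M M' : ℤ} (h : l1 P < M) (h' : l1 P < M') :
    Int.sign (P.eval M) = Int.sign (P.eval M') := by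
  rw [sign_eval_lead h, sign_eval_lead h']

theorem PV.mono {M : ℤ} {k k' : ℕ} {h h' a : ℤ} (ha : PV M k h a) (hk : k ≤ k') (hh : h ≤ h') :
    PV M k' h' a := by
  obtain ⟨P, h1, h2, h3⟩ := ha
  exact ⟨P, h1.trans hk, h2.trans hh, h3⟩

theorem PV.const (M : ℤ) (k : ℕ) {h a : ℤ} (ha : |a| ≤ h) : PV M k h a :=
  ⟨C a, by rw [natDegree_C]; exact Nat.zero_le k, by rw [l1_C]; exact ha, eval_C⟩

theorem PV.neg {M : ℤ} {k : ℕ} {h a : ℤ} (ha : PV M k h a) : PV M k h (-a) := by
  obtain ⟨P, h1, h2, h3⟩ := ha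
  exact ⟨-P, by rw [natDegree_neg]; exact h1, by rw [l1_neg]; exact h2, by rw [eval_neg, h3]⟩

theorem PV.add {M : ℤ} {k : ℕ} {h h' a b : ℤ} (ha : PV M k h a) (hb : PV M k h' b) :
    PV M k (h + h') (a + b) := by
  obtain ⟨P, h1, h2, h3⟩ := ha
  obtain ⟨Q, h4, h5, h6⟩ := hb
  exact ⟨P + Q, (natDegree_add_le P Q).trans (max_le h1 h4),
    (l1_add P Q).trans (add_le_add h2 h5), by rw [eval_add, h3, h6]⟩

theorem PV.sub {M : ℤ} {k : ℕ} {h h' a b : ℤ} (ha : PV M k h a) (hb : PV M k h' b) :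
    PV M k (h + h') (a - b) := by
  rw [sub_eq_add_neg]
  exact ha.add hb.neg

theorem PV.mul {M : ℤ} {k k' : ℕ} {h h' a b : ℤ} (hh : 0 ≤ h) (ha : PV M k h a)
    (hb : PV M k' h' b) : PV M (k + k') (h * h') (a * b) := by
  obtain ⟨P, h1, h2, h3⟩ := ha
  obtain ⟨Q, h4, h5, h6⟩ := hb
  exact ⟨P * Q, natDegree_mul_le.trans (add_le_add h1 h4),
    (l1_mul P Q).trans (mul_le_mul h2 h5 (l1_nonneg Q) hh), by rw [eval_mul, h3, h6]⟩

theorem PV.nonneg {M : ℤ} {k : ℕ} {h a : ℤ} (ha : PV M k h a) : 0 ≤ h := by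
  obtain ⟨P, _, h2, _⟩ := ha
  exact (l1_nonneg P).trans h2

theorem PV.finite (M : ℤ) (k : ℕ) (h : ℤ) : {a : ℤ | PV M k h a}.Finite := by
  refine (Set.finite_Icc (-(h * (max 1 |M|) ^ k)) (h * (max 1 |M|) ^ k)).subset ?_
  rintro a ⟨P, h1, h2, h3⟩
  have h4 : |P.eval M| ≤ l1 P * (max 1 |M|) ^ k := abs_eval_gen (le_max_left _ _)
    (le_max_right _ _) h1
  rw [h3] at h4
  have h5 : l1 P * (max 1 |M|) ^ k ≤ h * (max 1 |M|) ^ k :=
    mul_le_mul_of_nonneg_right h2 (pow_nonneg (le_trans zero_le_one (le_max_left _ _)) k)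
  exact abs_le.1 (h4.trans h5)

end Pool.Agent.H371R3.BE
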