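import Pool.Agent.H371R3.BE.Spec

/-!
# Task MM: Moebius relations with polynomial entries
-/

set_option autoImplicit false

namespace Pool.Agent.H371R3.BE

open H612BB Pool.Agent.NPC Polynomial

theorem mm_comp (M : ℤ) (k k' : ℕ) (h h' : ℤ) (s t u : ℝ) (h1 : PMob M k h s t)
    (h2 : PMob M k' h' t u) : PMob M (k + k') (2 * h * h') s u := by
  obtain ⟨p, q, r, w, hp, hq, hr, hw, hd, hn, he⟩ := h1
  obtain ⟨p', q', r', w', hp', hq', hr', hw', hd', hn', he'⟩ := h2
  have key : ∀ x y x' y' : ℤ, PV M k' h' x → PV M k' h' y → PV M k h x' → PV M k h y' →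
      PV M (k + k') (2 * h * h') (x * x' + y * y') := by
    intro x y x' y' hx hy hx' hy'
    have := PV.add (PV.mul hx.nonneg hx hx') (PV.mul hy.nonneg hy hy')
    exact this.mono (by omega) (le_of_eq (by ring))
  refine ⟨p' * p + q' * r, p' * q + q' * w, r' * p + w' * r, r' * q + w' * w,
    key _ _ _ _ hp' hq' hp hr, key _ _ _ _ hp' hq' hq hw, key _ _ _ _ hr' hw' hp hr,
    key _ _ _ _ hr' hw' hq hw, ?_, ?_, ?_⟩
  · have : (p' * p + q' * r) * (r' * q + w' * w) - (p' * q + q' * w) * (r' * p + w' * r) =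
        (p' * w' - q' * r') * (p * w - q * r) := by ring
    rw [this]
    exact mul_ne_zero hd' hd
  · have : (((r' * p + w' * r : ℤ) : ℝ)) * s + ((r' * q + w' * w : ℤ) : ℝ) =
        ((r : ℝ) * s + w) * ((r' : ℝ) * t + w') := by
      push_cast
      linear_combination (-(r' : ℝ)) * he
    rw [this]
    exact mul_ne_zero hn hn'
  · push_cast
    linear_combination ((r : ℝ) * s + w) * he' + ((p' : ℝ) - u * r') * he

theorem mm_inv (M : ℤ) (k : ℕ) (h : ℤ) (s t : ℝ) (h1 : PMob M k h s t) : PMob M k h t s := by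
  obtain ⟨p, q, r, w, hp, hq, hr, hw, hd, hn, he⟩ := h1
  refine ⟨w, -q, -r, p, hw, hq.neg, hr.neg, hp, ?_, ?_, ?_⟩
  · have : w * p - (-q) * (-r) = p * w - q * r := by ring
    rw [this]
    exact hd
  · intro hz
    have h0 : ((p : ℝ) * w - q * r) = 0 := by
      have e1 : ((r : ℝ) * s + w) * (((-r : ℤ) : ℝ) * t + p) = (p : ℝ) * w - q * r := by
        push_cast
        linear_combination (-(r : ℝ)) * he
      rw [hz, mul_zero] at e1
      exact e1.symm
    apply hd
    exact_mod_cast h0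
  · push_cast
    linear_combination -he

theorem mm_root (M : ℤ) (k l : ℕ) (h B : ℤ) (s t : ℝ) (h1 : PMob M k h s t)
    (h2 : PRoot M l B s) : PRoot M (2 * k + l) (6 * B * h ^ 2) t := by
  obtain ⟨p, q, r, w, hp, hq, hr, hw, hd, hn, he⟩ := h1
  obtain ⟨a, b, c, h0, ha, hb, hc, hz⟩ := h2
  have hh : 0 ≤ h := hp.nonneg
  have hB : 0 ≤ B := ha.nonneg
  have hBh : 0 ≤ B * h ^ 2 := by positivity
  have tr : ∀ x y z : ℤ, PV M l B x → PV M k h y → PV M k h z →
      PV M (2 * k + l) (B * h ^ 2) (x * (y * z)) := by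
    intro x y z hx hy hz
    exact (PV.mul hB hx (PV.mul hh hy hz)).mono (by omega) (le_of_eq (by ring))
  refine ⟨a * w ^ 2 - b * w * r + c * r ^ 2,
    -2 * a * w * q + b * (w * p + q * r) - 2 * c * p * r,
    a * q ^ 2 - b * q * p + c * p ^ 2, ?_, ?_, ?_, ?_, ?_⟩
  · by_contra hcon
    push Not at hcon
    obtain ⟨e1, e2, e3⟩ := hcon
    -- the form evaluated
    have hdet : (p * w - q * r) ≠ 0 := hd
    have ea : (p * w - q * r) ^ 2 * a = 0 := by
      linear_combination p ^ 2 * e1 + p * r * e2 + r ^ 2 * e3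
    have ec : (p * w - q * r) ^ 2 * c = 0 := by
      linear_combination q ^ 2 * e1 + q * w * e2 + w ^ 2 * e3
    have eb : (p * w - q * r) ^ 2 * b = 0 := by
      linear_combination 2 * p * q * e1 + (p * w + q * r) * e2 + 2 * r * w * e3
    have hd2 : (p * w - q * r) ^ 2 ≠ 0 := pow_ne_zero 2 hdet
    rcases h0 with h0 | h0 | h0
    · exact h0 ((mul_eq_zero.mp ea).resolve_left hd2)
    · exact h0 ((mul_eq_zero.mp eb).resolve_left hd2)
    · exact h0 ((mul_eq_zero.mp ec).resolve_left hd2)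
  · have t1 := tr _ _ _ ha hw hw
    have t2 := tr _ _ _ hb hw hr
    have t3 := tr _ _ _ hc hr hr
    have := PV.add (PV.add t1 t2.neg) t3
    have e : a * w ^ 2 - b * w * r + c * r ^ 2 = a * (w * w) + -(b * (w * r)) + c * (r * r) := by
      ring
    rw [e]
    refine this.mono le_rfl ?_
    nlinarith
  · have t1 := tr _ _ _ ha hw hq
    have t2 := tr _ _ _ hb hw hp
    have t3 := tr _ _ _ hb hq hr
    have t4 := tr _ _ _ hc hp hr
    have := PV.add (PV.add (PV.add (PV.add t1 t1).neg t2) t3) (PV.add t4 t4).neg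
    have e : -2 * a * w * q + b * (w * p + q * r) - 2 * c * p * r =
        -(a * (w * q) + a * (w * q)) + b * (w * p) + b * (q * r) +
          -(c * (p * r) + c * (p * r)) := by
      ring
    rw [e]
    refine this.mono le_rfl ?_
    nlinarith
  · have t1 := tr _ _ _ ha hq hq
    have t2 := tr _ _ _ hb hq hp
    have t3 := tr _ _ _ hc hp hp
    have := PV.add (PV.add t1 t2.neg) t3
    have e : a * q ^ 2 - b * q * p + c * p ^ 2 = a * (q * q) + -(b * (q * p)) + c * (p * p) := by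
      ring
    rw [e]
    refine this.mono le_rfl ?_
    nlinarith
  · push_cast
    have hn2 : ((r : ℝ) * s + w) ^ 2 ≠ 0 := pow_ne_zero 2 hn
    have hfin : ((r : ℝ) * s + w) ^ 2 *
        (((a : ℝ) * w ^ 2 - b * w * r + c * r ^ 2) * t ^ 2 +
        (-2 * a * w * q + b * (w * p + q * r) - 2 * c * p * r) * t +
        (a * q ^ 2 - b * q * p + c * p ^ 2)) = 0 := by
      have hT : ((r : ℝ) * s + w) ^ 2 *
        (((a : ℝ) * w ^ 2 - b * w * r + c * r ^ 2) * t ^ 2 +
        (-2 * a * w * q + b * (w * p + q * r) - 2 * c * p * r) * t +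
        (a * q ^ 2 - b * q * p + c * p ^ 2)) =
        ((a : ℝ) * w ^ 2 - b * w * r + c * r ^ 2) * (t * ((r : ℝ) * s + w)) ^ 2 +
        (-2 * a * w * q + b * (w * p + q * r) - 2 * c * p * r) * (t * ((r : ℝ) * s + w)) *
          ((r : ℝ) * s + w) +
        (a * q ^ 2 - b * q * p + c * p ^ 2) * ((r : ℝ) * s + w) ^ 2 := by ring
      rw [hT, he]
      linear_combination ((p : ℝ) * w - q * r) ^ 2 * hz
    exact (mul_eq_zero.mp hfin).resolve_left hn2

theorem t_MM : S_MM := ⟨mm_comp, mm_inv, mm_root⟩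

end Pool.Agent.H371R3.BE
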