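import Pool.Agent.H371R3.BE.Spec
import Pool.Agent.H612.BB.T_SGN
import Pool.Agent.H622R2.CoNP

/-!
# Assembly: the fragment inside the existential theory of the reals, quadratic solutions
-/

set_option autoImplicit false

namespace Pool.Agent.H371R3.BE

open H612BB Pool.Agent.NPC Pool.Agent.NPC.ER

/-! ### translation into sentences of the existential theory of the reals -/

/-- the term for a natural number, by its binary digits -/
def natT : List Bool → Tm
  | [] => Tm.zero
  | b :: l => Tm.add (if b then Tm.one else Tm.zero) (Tm.mul (Tm.add Tm.one Tm.one) (natT l))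

/-- the term for an integer -/
def intT (a : ℤ) : Tm := if 0 ≤ a then natT a.natAbs.bits else Tm.neg (natT a.natAbs.bits)

/-- the term `A x_i x_j + B x_i + C x_j + D` -/
def formT (i j : ℕ) (F : Form) : Tm :=
  Tm.add (Tm.add (Tm.mul (intT F.1) (Tm.mul (Tm.var i) (Tm.var j)))
    (Tm.mul (intT F.2.1) (Tm.var i))) (Tm.add (Tm.mul (intT F.2.2.1) (Tm.var j)) (intT F.2.2.2))

/-- the atomic formula: the form is positive, zero or negative -/
def litF (l : BLit) : Fm :=
  if l.2.2 = 1 then Fm.lt Tm.zero (formT l.1.1 l.1.2 l.2.1)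
  else if l.2.2 = 0 then Fm.eq Tm.zero (formT l.1.1 l.1.2 l.2.1)
  else if l.2.2 = -1 then Fm.lt (formT l.1.1 l.1.2 l.2.1) Tm.zero
  else Fm.lt Tm.zero Tm.zero

/-- a clause -/
def clauseF (c : List BLit) : Fm := c.foldr (fun l ψ => Fm.or (litF l) ψ) (Fm.lt Tm.zero Tm.zero)

/-- the quantifier-free formula of an instance -/
def instF (φ : Inst) : Fm := φ.foldr (fun c ψ => Fm.and (clauseF c) ψ) (Fm.eq Tm.zero Tm.zero)

theorem eval_natT (x : ℕ → ℝ) (n : ℕ) : (natT n.bits).eval x = n := by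
  induction n using Nat.binaryRec' with
  | zero => simp [natT, Tm.eval]
  | bit b n hb ih =>
    rw [Nat.bits_append_bit _ _ hb]
    cases b
    · simp only [natT, Tm.eval, ih, Nat.bit_false]
      push_cast
      simp only [Tm.eval]
      ring
    · simp only [natT, Tm.eval, ih, Nat.bit_true]
      push_cast
      simp only [Tm.eval]
      ring

theorem cast_natAbs_of_nonneg {a : ℤ} (h : 0 ≤ a) : ((a.natAbs : ℕ) : ℝ) = a := by
  have h1 : (a.natAbs : ℤ) = a := Int.natAbs_of_nonneg h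
  have h2 : (((a.natAbs : ℕ) : ℤ) : ℝ) = (a : ℝ) := by rw [h1]
  rwa [Int.cast_natCast] at h2

theorem cast_natAbs_of_neg {a : ℤ} (h : ¬ 0 ≤ a) : ((a.natAbs : ℕ) : ℝ) = -a := by
  have h1 : (a.natAbs : ℤ) = -a := Int.ofNat_natAbs_of_nonpos (by omega)
  have h2 : (((a.natAbs : ℕ) : ℤ) : ℝ) = ((-a : ℤ) : ℝ) := by rw [h1]
  rw [Int.cast_natCast, Int.cast_neg] at h2
  exact h2

theorem eval_intT (x : ℕ → ℝ) (a : ℤ) : (intT a).eval x = a := by
  unfold intT
  split_ifs with h
  · rw [eval_natT, cast_natAbs_of_nonneg h]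
  · rw [Tm.eval, eval_natT, cast_natAbs_of_neg h, neg_neg]

theorem eval_formT (x : ℕ → ℝ) (i j : ℕ) (F : Form) : (formT i j F).eval x = F.val (x i) (x j) := by
  simp only [formT, Tm.eval, eval_intT, Form.val]
  ring

theorem holds_litF (x : ℕ → ℝ) (l : BLit) : (litF l).Holds x ↔ Ok x l := by
  unfold litF Ok
  have e := eval_formT x l.1.1 l.1.2 l.2.1
  generalize l.2.1.val (x l.1.1) (x l.1.2) = v at e
  rcases lt_trichotomy v 0 with h | h | h
  · have hs : sgR v = -1 := by unfold sgR; rw [if_neg (not_lt.2 h.le), if_pos h]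
    rw [hs]
    split_ifs with h1 h2 h3
    · simp only [Fm.Holds, Tm.eval, e, h1]
      constructor
      · intro h'; linarith
      · intro h'; norm_num at h'
    · simp only [Fm.Holds, Tm.eval, e, h2]
      constructor
      · intro h'; linarith
      · intro h'; norm_num at h'
    · simp only [Fm.Holds, Tm.eval, e, h3, h]
    · simp only [Fm.Holds, Tm.eval, lt_irrefl, false_iff]
      exact fun h' => h3 h'.symm
  · have hs : sgR v = 0 := by rw [h]; simp [sgR]
    rw [hs]
    split_ifs with h1 h2 h3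
    · simp only [Fm.Holds, Tm.eval, e, h1, h]
      norm_num
    · simp only [Fm.Holds, Tm.eval, e, h2, h]
    · simp only [Fm.Holds, Tm.eval, e, h3, h]
      norm_num
    · simp only [Fm.Holds, Tm.eval, lt_irrefl, false_iff]
      exact fun h' => h2 h'.symm
  · have hs : sgR v = 1 := by unfold sgR; rw [if_pos h]
    rw [hs]
    split_ifs with h1 h2 h3
    · simp only [Fm.Holds, Tm.eval, e, h1, h]
    · simp only [Fm.Holds, Tm.eval, e, h2]
      constructor
      · intro h'; linarith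
      · intro h'; norm_num at h'
    · simp only [Fm.Holds, Tm.eval, e, h3]
      constructor
      · intro h'; linarith
      · intro h'; norm_num at h'
    · simp only [Fm.Holds, Tm.eval, lt_irrefl, false_iff]
      exact fun h' => h1 h'.symm

theorem holds_clauseF (x : ℕ → ℝ) (c : List BLit) : (clauseF c).Holds x ↔ ∃ l ∈ c, Ok x l := by
  induction c with
  | nil => simp [clauseF, Fm.Holds]
  | cons l c ih =>
    have e : clauseF (l :: c) = Fm.or (litF l) (clauseF c) := rfl
    rw [e, Fm.Holds, ih, holds_litF]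
    simp

theorem holds_instF (x : ℕ → ℝ) (φ : Inst) : (instF φ).Holds x ↔ ∀ c ∈ φ, ∃ l ∈ c, Ok x l := by
  induction φ with
  | nil => simp [instF, Fm.Holds]
  | cons c φ ih =>
    have e : instF (c :: φ) = Fm.and (clauseF c) (instF φ) := rfl
    rw [e, Fm.Holds, ih, holds_clauseF]
    simp

/-- the instances are sentences of the existential theory of the reals -/
theorem etr_instF (φ : Inst) : ETR (instF φ) ↔ BSat φ := by
  unfold ETR BSat
  simp only [holds_instF]

/-! ### soundness and quadratic solutions -/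

theorem look_ne {φ : Inst} {C : Cert} (h : verB (φ, C) = true) (i : ℕ) : (look C i).2.2 ≠ 0 := by
  unfold verB at h
  rw [Bool.and_eq_true, List.all_eq_true] at h
  unfold look
  cases hf : (C.filter (fun p => decide (p.1 = i))).head? with
  | none => simp
  | some p =>
    have h1 : p ∈ C := List.mem_of_mem_filter (List.mem_of_mem_head? hf)
    have h2 := h.1 p h1
    simpa using h2

theorem ok_look (sg : S_SGN) {φ : Inst} {C : Cert} (h : verB (φ, C) = true) :
    ∀ c ∈ φ, ∃ l ∈ c, Ok (fun i => (look C i).val) l := by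
  have h0 := look_ne h
  unfold verB at h
  rw [Bool.and_eq_true, List.all_eq_true, List.all_eq_true] at h
  intro c hc
  have h1 := h.2 c hc
  rw [List.any_eq_true] at h1
  obtain ⟨l, hl, h2⟩ := h1
  refine ⟨l, hl, ?_⟩
  unfold litB at h2
  rw [decide_eq_true_iff, sg _ _ _ (h0 _) (h0 _)] at h2
  exact h2

/-- soundness -/
theorem m_SN (sg : S_SGN) : S_SN := fun _ C h => ⟨fun i => (look C i).val, ok_look sg h⟩

theorem num_root {α : H612BB.Num} (h : α.2.2 ≠ 0) : ∃ a b c : ℤ, a ≠ 0 ∧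
    (a : ℝ) * α.val ^ 2 + b * α.val + c = 0 := by
  obtain ⟨p, D, r⟩ := α
  have hr : (r : ℝ) ≠ 0 := by exact_mod_cast h
  refine ⟨r ^ 2, -(2 * r * p), p ^ 2 - D, pow_ne_zero 2 h, ?_⟩
  have hD : √(D : ℝ) ^ 2 = D := Real.sq_sqrt (Nat.cast_nonneg D)
  simp only [H612BB.Num.val]
  push_cast
  field_simp
  linear_combination hD

/-- solutions of degree at most two -/
theorem quadratic_of (cm : S_CM) (sz' : S_SZ) (sg : S_SGN) (φ : Inst) (h : BSat φ) :
    ∃ x : ℕ → ℝ, (∀ c ∈ φ, ∃ l ∈ c, Ok x l) ∧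
      ∀ i, ∃ a b c : ℤ, a ≠ 0 ∧ (a : ℝ) * x i ^ 2 + b * x i + c = 0 := by
  obtain ⟨q, hq⟩ := sz'
  obtain ⟨H, hH, hF, -⟩ := hq φ
  obtain ⟨C, h1, -⟩ := cm φ H hH hF h
  exact ⟨fun i => (look C i).val, ok_look sg h1, fun i => num_root (look_ne h1 i)⟩

/-- everything -/
theorem final_of (np : InNPP BSat) (hd : NPHardP BSat) (cm : S_CM) (sz' : S_SZ) (sg : S_SGN) :
    (∀ φ, ETR (instF φ) ↔ BSat φ) ∧ InNPP BSat ∧ NPHardP BSat ∧
    (ERHard (lang BSat) ↔ ∀ L : Set (List Bool), InER L → InNP L) ∧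
    (∀ φ, BSat φ → ∃ x : ℕ → ℝ, (∀ c ∈ φ, ∃ l ∈ c, Ok x l) ∧
      ∀ i, ∃ a b c : ℤ, a ≠ 0 ∧ (a : ℝ) * x i ^ 2 + b * x i + c = 0) := by
  refine ⟨etr_instF, np, hd, ⟨fun h L hL => ?_, fun h L hL => ?_⟩,
    fun φ h => quadratic_of cm sz' sg φ h⟩
  · exact Pool.Agent.H622R2.InNP.of_reduces (h L hL) np
  · exact hd L (h L hL)

end Pool.Agent.H371R3.BE
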