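import Pool.Agent.H371R3.BE.Spec

/-!
# Codes of roots of quadratic polynomials with polynomial entries
-/

set_option autoImplicit false

namespace Pool.Agent.H371R3.BE

open H612BB Pool.Agent.NPC Polynomial

theorem pc_l1_zero : l1 (0 : ℤ[X]) = 0 := by
  have := l1_C 0
  simpa using this

theorem pc_l1_smul (m : ℤ) (P : ℤ[X]) {B : ℤ} (hP : l1 P ≤ B) : l1 (C m * P) ≤ |m| * B := by
  refine (l1_mul _ _).trans ?_
  rw [l1_C]
  exact mul_le_mul_of_nonneg_left hP (abs_nonneg _)

theorem pc_deg_smul (m : ℤ) (P : ℤ[X]) {k : ℕ} (hP : P.natDegree ≤ k) :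
    (C m * P).natDegree ≤ k := (natDegree_C_mul_le _ _).trans hP

theorem t_PC : S_PC := by
  intro M k B z hB1 hz
  obtain ⟨a, b, c, hne, ⟨Pa, da, na, ea⟩, ⟨Pb, db, nb, eb⟩, ⟨Pc, dc, nc, ec⟩, hz⟩ := hz
  have hB : 0 ≤ B := by omega
  have hBB : B ≤ 5 * B ^ 2 := by nlinarith
  have h2BB : 2 * B ≤ 5 * B ^ 2 := by nlinarith
  have h5 : (0 : ℤ) ≤ 5 * B ^ 2 := by positivity
  by_cases ha0 : a = 0
  · by_cases hb0 : b = 0
    · subst ha0 hb0
      have h1 : (c : ℝ) = 0 := by simpa using hz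
      have h2 : c = 0 := by exact_mod_cast h1
      simp [h2] at hne
    · have hb1 : (b : ℝ) ≠ 0 := by exact_mod_cast hb0
      have ha0' : (a : ℝ) = 0 := by rw [ha0]; simp
      refine ⟨(-Pc, 0, Pb), ⟨⟨?_, ?_⟩, ⟨?_, ?_⟩, ⟨?_, ?_⟩⟩, ?_, ?_, ?_⟩
      · rw [natDegree_neg]; omega
      · rw [l1_neg]; omega
      · simp
      · rw [pc_l1_zero]; exact h5
      · show Pb.natDegree ≤ 2 * k
        omega
      · show l1 Pb ≤ 5 * B ^ 2
        omega
      · simp only [PNum.at]
        rw [eb]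
        exact hb0
      · simp
      · simp only [PNum.at, Num.val, eval_neg, eval_zero, Int.toNat_zero, Nat.cast_zero,
          Real.sqrt_zero, add_zero, eb, ec, Int.cast_neg]
        rw [div_eq_iff hb1]
        rw [ha0', zero_mul, zero_add] at hz
        linarith
  · have ha1 : (a : ℝ) ≠ 0 := by exact_mod_cast ha0
    have hD : ((b ^ 2 - 4 * a * c : ℤ) : ℝ) = (2 * a * z + b) ^ 2 := by
      push_cast; linear_combination (-4 * (a : ℝ)) * hz
    have hD0 : 0 ≤ b ^ 2 - 4 * a * c := by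
      have : (0 : ℝ) ≤ ((b ^ 2 - 4 * a * c : ℤ) : ℝ) := by rw [hD]; positivity
      exact_mod_cast this
    have hDn : (((b ^ 2 - 4 * a * c).toNat : ℕ) : ℝ) = (2 * a * z + b) ^ 2 := by
      rw [← hD]
      have h1 : (((b ^ 2 - 4 * a * c).toNat : ℕ) : ℤ) = b ^ 2 - 4 * a * c :=
        Int.toNat_of_nonneg hD0
      rw [← h1]
      push_cast
      rw [Int.toNat_natCast]
    have hsq : √(((b ^ 2 - 4 * a * c).toNat : ℕ) : ℝ) = |2 * a * z + b| := by
      rw [hDn, Real.sqrt_sq_eq_abs]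
    -- the discriminant
    have eD : (Pb * Pb + -(C 4 * (Pa * Pc))).eval M = b ^ 2 - 4 * a * c := by
      simp only [eval_add, eval_mul, eval_neg, eval_C, ea, eb, ec]
      ring
    have dD : (Pb * Pb + -(C 4 * (Pa * Pc))).natDegree ≤ 2 * k := by
      refine (natDegree_add_le _ _).trans (max_le ?_ ?_)
      · refine natDegree_mul_le.trans ?_
        omega
      · rw [natDegree_neg]
        apply pc_deg_smul
        refine natDegree_mul_le.trans ?_
        omega
    have nD : l1 (Pb * Pb + -(C 4 * (Pa * Pc))) ≤ 5 * B ^ 2 := by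
      have h1 : l1 (Pb * Pb) ≤ B * B :=
        (l1_mul _ _).trans (mul_le_mul nb nb (l1_nonneg _) hB)
      have h2 : l1 (Pa * Pc) ≤ B * B :=
        (l1_mul _ _).trans (mul_le_mul na nc (l1_nonneg _) hB)
      have h3 := pc_l1_smul 4 (Pa * Pc) h2
      have h4 := l1_add (Pb * Pb) (-(C 4 * (Pa * Pc)))
      rw [l1_neg] at h4
      have h6 : |(4 : ℤ)| = 4 := by norm_num
      rw [h6] at h3
      nlinarith
    have h2 : |(2 : ℤ)| = 2 := by norm_num
    rcases le_total 0 (2 * (a : ℝ) * z + b) with h | h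
    · refine ⟨(-Pb, Pb * Pb + -(C 4 * (Pa * Pc)), C 2 * Pa),
        ⟨⟨?_, ?_⟩, ⟨dD, nD⟩, ⟨?_, ?_⟩⟩, ?_, ?_, ?_⟩
      · rw [natDegree_neg]; omega
      · rw [l1_neg]; omega
      · show (C 2 * Pa).natDegree ≤ 2 * k
        exact (pc_deg_smul 2 Pa da).trans (by omega)
      · show l1 (C 2 * Pa) ≤ 5 * B ^ 2
        have h3 := pc_l1_smul 2 Pa na
        rw [h2] at h3
        omega
      · simp only [PNum.at, eval_mul, eval_C, ea]
        omega
      · rw [eD]; exact hD0
      · simp only [PNum.at, Num.val]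
        rw [eD, hsq, abs_of_nonneg h]
        simp only [eval_neg, eval_mul, eval_C, ea, eb]
        push_cast
        field_simp
        ring
    · refine ⟨(Pb, Pb * Pb + -(C 4 * (Pa * Pc)), C (-2) * Pa),
        ⟨⟨?_, ?_⟩, ⟨dD, nD⟩, ⟨?_, ?_⟩⟩, ?_, ?_, ?_⟩
      · show Pb.natDegree ≤ 2 * k
        omega
      · show l1 Pb ≤ 5 * B ^ 2
        omega
      · show (C (-2) * Pa).natDegree ≤ 2 * k
        exact (pc_deg_smul (-2) Pa da).trans (by omega)
      · show l1 (C (-2) * Pa) ≤ 5 * B ^ 2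
        have h3 := pc_l1_smul (-2) Pa na
        rw [abs_neg, h2] at h3
        omega
      · simp only [PNum.at, eval_mul, eval_C, ea]
        omega
      · rw [eD]; exact hD0
      · simp only [PNum.at, Num.val]
        rw [eD, hsq, abs_of_nonpos h]
        simp only [eval_mul, eval_C, ea, eb]
        push_cast
        field_simp
        ring

end Pool.Agent.H371R3.BE
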