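import Pool.Agent.H371R3.BE.Spec
import Pool.Agent.H612.BB.T_MOB

/-!
# Task PM: the lexicographic minimum with polynomial coefficients (after T_MOB)
-/

set_option autoImplicit false

namespace Pool.Agent.H371R3.BE

open H612BB Pool.Agent.NPC Polynomial Filter Topology

/-- forms whose coefficients are values of polynomials of degree at most 1 -/
def pm_Bd (M H : ℤ) (F : Form) : Prop :=
  PV M 1 H F.1 ∧ PV M 1 H F.2.1 ∧ PV M 1 H F.2.2.1 ∧ PV M 1 H F.2.2.2

/-- the graph of the tight forms with nonzero determinant -/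
def pm_G {N : ℕ} (M H : ℤ) (z : Fin N → ℝ) : SimpleGraph (Fin N) where
  Adj i j := i ≠ j ∧ ∃ F : Form, pm_Bd M H F ∧ F.val (z i) (z j) = 0 ∧
    F.1 * F.2.2.2 - F.2.1 * F.2.2.1 ≠ 0
  symm := by
    refine ⟨?_⟩
    rintro i j ⟨hij, F, hb, hv, hd⟩
    refine ⟨hij.symm, MOB_sw F, ⟨hb.1, hb.2.2.1, hb.2.1, hb.2.2.2⟩, ?_, ?_⟩
    · rw [MOB_sw_val]
      exact hv
    · simp only [MOB_sw]
      intro h
      apply hd
      linarith
  loopless := ⟨fun i h => h.1 rfl⟩

lemma pm_mono {M : ℤ} {k k' : ℕ} {h h' : ℤ} {s t : ℝ} (hm : PMob M k h s t) (hk : k ≤ k')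
    (hh : h ≤ h') : PMob M k' h' s t := by
  obtain ⟨p, q, r, w, h1, h2, h3, h4, h5⟩ := hm
  exact ⟨p, q, r, w, h1.mono hk hh, h2.mono hk hh, h3.mono hk hh, h4.mono hk hh, h5⟩

lemma pm_qmono {M : ℤ} {k k' : ℕ} {B B' : ℤ} {s : ℝ} (hm : PRoot M k B s) (hk : k ≤ k')
    (hh : B ≤ B') : PRoot M k' B' s := by
  obtain ⟨a, b, c, h0, h1, h2, h3, h4⟩ := hm
  exact ⟨a, b, c, h0, h1.mono hk hh, h2.mono hk hh, h3.mono hk hh, h4⟩

lemma pm_adj {N : ℕ} {M H : ℤ} {z : Fin N → ℝ} {i j : Fin N} (h : (pm_G M H z).Adj i j) :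
    PMob M 1 H (z i) (z j) := by
  obtain ⟨-, F, hb, hv, hd⟩ := h
  have hv' : (F.1 : ℝ) * z i * z j + F.2.1 * z i + F.2.2.1 * z j + F.2.2.2 = 0 := hv
  refine ⟨-F.2.1, -F.2.2.2, F.1, F.2.2.1, hb.2.1.neg, hb.2.2.2.neg, hb.1, hb.2.2.1, ?_, ?_, ?_⟩
  · intro h
    apply hd
    linarith
  · intro h0
    apply hd
    have h1 : (F.2.1 : ℝ) * z i + F.2.2.2 = 0 := by linear_combination hv' - z j * h0
    have h2 : ((F.1 * F.2.2.2 - F.2.1 * F.2.2.1 : ℤ) : ℝ) = 0 := by
      push_cast
      linear_combination (F.1 : ℝ) * h1 - (F.2.1 : ℝ) * h0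
    exact_mod_cast h2
  · push_cast
    linear_combination hv'

lemma pm_walk (h1 : S_MM) {N : ℕ} {M H : ℤ} {z : Fin N → ℝ} {i j : Fin N}
    (p : (pm_G M H z).Walk i j) : PMob M p.length ((2 * H) ^ p.length) (z i) (z j) := by
  induction p with
  | nil =>
    simp only [SimpleGraph.Walk.length_nil, pow_zero]
    exact ⟨1, 0, 0, 1, PV.const _ _ (by norm_num), PV.const _ _ (by norm_num),
      PV.const _ _ (by norm_num), PV.const _ _ (by norm_num), by norm_num,
      by norm_num, by norm_num⟩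
  | cons hadj p ih =>
    have h2 := h1.1 _ _ _ _ _ _ _ _ (pm_adj hadj) ih
    rw [SimpleGraph.Walk.length_cons]
    refine pm_mono h2 (by omega) (le_of_eq ?_)
    rw [pow_succ, mul_comm]

lemma pm_reach (h1 : S_MM) {N : ℕ} {M H : ℤ} (hH : 1 ≤ H) {z : Fin N → ℝ} {i j : Fin N}
    (h : (pm_G M H z).Reachable i j) : PMob M N ((2 * H) ^ N) (z i) (z j) := by
  classical
  obtain ⟨p, hp⟩ := h.exists_isPath
  have hlen := hp.length_lt
  rw [Fintype.card_fin] at hlen
  exact pm_mono (pm_walk h1 p) hlen.le (pow_le_pow_right₀ (by linarith) hlen.le)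

lemma pm_key1 {M H : ℤ} {x y : ℝ} {F : Form} (hb : pm_Bd M H F) (hv : F.val x y = 0)
    (hd : F.1 * F.2.2.2 - F.2.1 * F.2.2.1 = 0) (hq : ¬ PRoot M 1 H x) (x' : ℝ) :
    F.val x' y = 0 := by
  obtain ⟨A, B, C, D⟩ := F
  simp only [pm_Bd] at hb
  simp only at hd
  have hv' : (A : ℝ) * x * y + B * x + C * y + D = 0 := hv
  have hdR : (A : ℝ) * D - B * C = 0 := by exact_mod_cast hd
  have hH : 0 ≤ H := hb.1.nonneg
  have h00 : PV M 1 H 0 := PV.const _ _ (by simpa using hH)
  have h1 : (A : ℝ) * y + B = 0 := by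
    by_contra hne
    apply hq
    by_cases hA : A = 0
    · have hB : B ≠ 0 := by
        rintro rfl
        apply hne
        rw [hA]
        simp
      have hC : C = 0 := by
        have : B * C = 0 := by rw [hA] at hd; linarith
        rcases mul_eq_zero.mp this with h | h
        · exact absurd h hB
        · exact h
      refine ⟨0, B, D, Or.inr (Or.inl hB), h00, hb.2.1, hb.2.2.2, ?_⟩
      rw [hA, hC] at hv'
      push_cast at hv' ⊢
      linear_combination hv'
    · refine ⟨0, A, C, Or.inr (Or.inl hA), h00, hb.1, hb.2.2.1, ?_⟩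
      have h2 : ((A : ℝ) * x + C) * (A * y + B) = 0 := by
        linear_combination (A : ℝ) * hv' - hdR
      rcases mul_eq_zero.mp h2 with h | h
      · push_cast
        linear_combination h
      · exact absurd h hne
  have h2 : (C : ℝ) * y + D = 0 := by linear_combination hv' - x * h1
  show (A : ℝ) * x' * y + B * x' + C * y + D = 0
  linear_combination x' * h1 + h2

lemma pm_key2 {M H : ℤ} {x y : ℝ} {F : Form} (hb : pm_Bd M H F) (hv : F.val y x = 0)
    (hd : F.1 * F.2.2.2 - F.2.1 * F.2.2.1 = 0) (hq : ¬ PRoot M 1 H x) (x' : ℝ) :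
    F.val y x' = 0 := by
  have h := pm_key1 (F := MOB_sw F) (x := x) (y := y) (M := M) (H := H)
    ⟨hb.1, hb.2.2.1, hb.2.1, hb.2.2.2⟩ (by rw [MOB_sw_val]; exact hv)
    (by simp only [MOB_sw]; linarith) hq x'
  rw [MOB_sw_val] at h
  exact h

lemma pm_m3 {M : ℤ} {N : ℕ} {H h A p q : ℤ} (hH : 0 ≤ H) (hh : 0 ≤ h) (hA : PV M 1 H A)
    (hp : PV M N h p) (hq : PV M N h q) : PV M (1 + 2 * N) (H * h ^ 2) (A * p * q) := by
  have h1 := PV.mul (mul_nonneg hH hh) (PV.mul hH hA hp) hq
  exact h1.mono (by omega) (le_of_eq (by ring))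

lemma pm_fin (M H : ℤ) : {F : Form | pm_Bd M H F}.Finite := by
  have h0 := PV.finite M 1 H
  have h : {F : Form | pm_Bd M H F} ⊆
      {a : ℤ | PV M 1 H a} ×ˢ ({a : ℤ | PV M 1 H a} ×ˢ ({a : ℤ | PV M 1 H a} ×ˢ
        {a : ℤ | PV M 1 H a})) := by
    intro F hF
    exact ⟨hF.1, hF.2.1, hF.2.2.1, hF.2.2.2⟩
  exact (h0.prod (h0.prod (h0.prod h0))).subset h

theorem t_PM (hL : S_LEX) (h1 : S_MM) : S_PM := by
  intro N K M H hH hK hne hsign
  classical
  obtain ⟨z, hzK, hmin⟩ := hL N K hK hne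
  refine ⟨z, hzK, ?_⟩
  intro i
  set G := pm_G M H z with hG
  set h : ℤ := (2 * H) ^ N with hh
  have hh1 : 1 ≤ h := one_le_pow₀ (by linarith)
  have hbig : 64 * H ^ 2 * h ^ 4 ≤ (8 * H) ^ (4 * N + 2) := by
    rw [pow_add, hh, ← pow_mul, mul_comm N 4]
    have h3 : (2 * H) ^ (4 * N) ≤ (8 * H) ^ (4 * N) :=
      pow_le_pow_left₀ (by linarith) (by linarith) _
    calc 64 * H ^ 2 * (2 * H) ^ (4 * N) ≤ 64 * H ^ 2 * (8 * H) ^ (4 * N) := by gcongr
      _ = _ := by ring
  have hHH : H ≤ H ^ 2 := by nlinarith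
  have hh24 : h ^ 2 ≤ h ^ 4 := pow_le_pow_right₀ hh1 (by norm_num)
  have hh40 : 0 ≤ h ^ 4 := by positivity
  by_contra hcon
  -- no point of the component is a small root
  have hA : ∀ j, G.Reachable i j → ¬ PRoot M 1 H (z j) := by
    intro j hj hq
    apply hcon
    have h2 := h1.2.2 M N 1 h H (z j) (z i) (pm_reach h1 hH hj.symm) hq
    refine pm_qmono h2 (by omega) (le_trans ?_ hbig)
    nlinarith
  -- least element of the component
  obtain ⟨i0, hi0, hleast⟩ : ∃ i0, G.Reachable i i0 ∧ ∀ j, G.Reachable i j → i0 ≤ j := by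
    have hne : (Finset.univ.filter (fun j => G.Reachable i j)).Nonempty :=
      ⟨i, by simp⟩
    refine ⟨Finset.min' _ hne, ?_, ?_⟩
    · have := Finset.min'_mem _ hne
      exact (Finset.mem_filter.mp this).2
    · intro j hj
      exact Finset.min'_le _ _ (Finset.mem_filter.mpr ⟨Finset.mem_univ _, hj⟩)
  -- the Moebius maps
  have hM : ∀ j, ∃ p q r w : ℤ, (G.Reachable i j → (PV M N h p ∧ PV M N h q ∧ PV M N h r ∧ PV M N h w ∧
      (r : ℝ) * z i0 + w ≠ 0 ∧ z j * (r * z i0 + w) = p * z i0 + q)) ∧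
      (j = i0 → p = 1 ∧ q = 0 ∧ r = 0 ∧ w = 1) := by
    intro j
    by_cases hj0 : j = i0
    · refine ⟨1, 0, 0, 1, fun _ => ⟨PV.const _ _ (by simpa using hh1),
        PV.const _ _ (by simpa using (by linarith : (0:ℤ) ≤ h)),
        PV.const _ _ (by simpa using (by linarith : (0:ℤ) ≤ h)),
        PV.const _ _ (by simpa using hh1), by norm_num, ?_⟩,
        fun _ => ⟨rfl, rfl, rfl, rfl⟩⟩
      rw [hj0]
      push_cast
      ring
    · by_cases hj : G.Reachable i j
      · obtain ⟨p, q, r, w, hp, hq, hr, hw, -, hne, he⟩ :=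
          pm_reach h1 hH (hi0.symm.trans hj)
        exact ⟨p, q, r, w, fun _ => ⟨hp, hq, hr, hw, hne, he⟩, fun h => absurd h hj0⟩
      · exact ⟨0, 0, 0, 0, fun h => absurd h hj, fun h => absurd h hj0⟩
  choose p q r w hM hid using hM
  -- case B does not occur
  have hB : ∀ i' j', G.Reachable i i' → G.Reachable i j' → ∀ F : Form, pm_Bd M H F →
      F.val (z i') (z j') = 0 → ∀ t : ℝ,
      (F.1 : ℝ) * (p i' * t + q i') * (p j' * t + q j') +
        F.2.1 * (p i' * t + q i') * (r j' * t + w j') +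
        F.2.2.1 * (r i' * t + w i') * (p j' * t + q j') +
        F.2.2.2 * (r i' * t + w i') * (r j' * t + w j') = 0 := by
    intro i' j' hi' hj' F hb hv
    obtain ⟨hpi, hqi, hri, hwi, -, hei⟩ := hM i' hi'
    obtain ⟨hpj, hqj, hrj, hwj, -, hej⟩ := hM j' hj'
    set a : ℤ := F.1 * p i' * p j' + F.2.1 * p i' * r j' + F.2.2.1 * r i' * p j' +
      F.2.2.2 * r i' * r j' with ha
    set b : ℤ := (F.1 * p i' * q j' + F.1 * q i' * p j') +
      (F.2.1 * p i' * w j' + F.2.1 * q i' * r j') +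
      (F.2.2.1 * r i' * q j' + F.2.2.1 * w i' * p j') +
      (F.2.2.2 * r i' * w j' + F.2.2.2 * w i' * r j') with hb'
    set c : ℤ := F.1 * q i' * q j' + F.2.1 * q i' * w j' + F.2.2.1 * w i' * q j' +
      F.2.2.2 * w i' * w j' with hc
    have hpoly : ∀ t : ℝ, (F.1 : ℝ) * (p i' * t + q i') * (p j' * t + q j') +
        F.2.1 * (p i' * t + q i') * (r j' * t + w j') +
        F.2.2.1 * (r i' * t + w i') * (p j' * t + q j') +
        F.2.2.2 * (r i' * t + w i') * (r j' * t + w j') = (a : ℝ) * t ^ 2 + b * t + c := by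
      intro t
      rw [ha, hb', hc]
      push_cast
      ring
    by_cases hz : a = 0 ∧ b = 0 ∧ c = 0
    · intro t
      rw [hpoly, hz.1, hz.2.1, hz.2.2]
      simp
    · exfalso
      apply hcon
      have hnz : a ≠ 0 ∨ b ≠ 0 ∨ c ≠ 0 := by
        by_contra h
        push Not at h
        exact hz h
      have hH0 : (0 : ℤ) ≤ H := by linarith
      have hh0 : (0 : ℤ) ≤ h := by linarith
      have hle4 : H * h ^ 2 + H * h ^ 2 + H * h ^ 2 + H * h ^ 2 ≤ 8 * H * h ^ 2 := by
        have : 0 ≤ H * h ^ 2 := by positivity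
        nlinarith
      have hab : PV M (1 + 2 * N) (8 * H * h ^ 2) a := by
        have e1 := pm_m3 hH0 hh0 hb.1 hpi hpj
        have e2 := pm_m3 hH0 hh0 hb.2.1 hpi hrj
        have e3 := pm_m3 hH0 hh0 hb.2.2.1 hri hpj
        have e4 := pm_m3 hH0 hh0 hb.2.2.2 hri hrj
        exact (((e1.add e2).add e3).add e4).mono le_rfl hle4
      have hcb : PV M (1 + 2 * N) (8 * H * h ^ 2) c := by
        have e1 := pm_m3 hH0 hh0 hb.1 hqi hqj
        have e2 := pm_m3 hH0 hh0 hb.2.1 hqi hwj
        have e3 := pm_m3 hH0 hh0 hb.2.2.1 hwi hqj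
        have e4 := pm_m3 hH0 hh0 hb.2.2.2 hwi hwj
        exact (((e1.add e2).add e3).add e4).mono le_rfl hle4
      have hbb : PV M (1 + 2 * N) (8 * H * h ^ 2) b := by
        have e1 := pm_m3 hH0 hh0 hb.1 hpi hqj
        have e2 := pm_m3 hH0 hh0 hb.1 hqi hpj
        have e3 := pm_m3 hH0 hh0 hb.2.1 hpi hwj
        have e4 := pm_m3 hH0 hh0 hb.2.1 hqi hrj
        have e5 := pm_m3 hH0 hh0 hb.2.2.1 hri hqj
        have e6 := pm_m3 hH0 hh0 hb.2.2.1 hwi hpj
        have e7 := pm_m3 hH0 hh0 hb.2.2.2 hri hwj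
        have e8 := pm_m3 hH0 hh0 hb.2.2.2 hwi hrj
        exact ((((e1.add e2).add (e3.add e4)).add (e5.add e6)).add (e7.add e8)).mono le_rfl
          (le_of_eq (by ring))
      have hroot : (a : ℝ) * (z i0) ^ 2 + b * z i0 + c = 0 := by
        rw [← hpoly (z i0), ← hei, ← hej]
        have hv' : (F.1 : ℝ) * z i' * z j' + F.2.1 * z i' + F.2.2.1 * z j' + F.2.2.2 = 0 := hv
        linear_combination ((r i' * z i0 + w i') * (r j' * z i0 + w j')) * hv'
      have hq : PRoot M (1 + 2 * N) (8 * H * h ^ 2) (z i0) := ⟨a, b, c, hnz, hab, hbb, hcb, hroot⟩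
      have h2 := h1.2.2 M N _ h _ (z i0) (z i) (pm_reach h1 hH hi0.symm) hq
      refine pm_qmono h2 (by omega) (le_trans ?_ hbig)
      calc 6 * (8 * H * h ^ 2) * h ^ 2 = 48 * H * h ^ 4 := by ring
        _ ≤ 64 * H ^ 2 * h ^ 4 := by
          gcongr
          · linarith
  -- the perturbation
  set zt : ℝ → Fin N → ℝ := fun t j =>
    if G.Reachable i j then ((p j : ℝ) * t + q j) / (r j * t + w j) else z j with hzt
  have hzt0 : ∀ j, zt (z i0) j = z j := by
    intro j
    simp only [hzt]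
    split_ifs with hj
    · obtain ⟨-, -, -, -, hne, he⟩ := hM j hj
      rw [div_eq_iff hne]
      exact he.symm
    · rfl
  have hcont : ∀ j, ContinuousAt (fun t => zt t j) (z i0) := by
    intro j
    by_cases hj : G.Reachable i j
    · obtain ⟨-, -, -, -, hne, he⟩ := hM j hj
      simp only [hzt, if_pos hj]
      exact ContinuousAt.div (by fun_prop) (by fun_prop) hne
    · simp only [hzt, if_neg hj]
      exact continuousAt_const
  have hden : ∀ᶠ t in 𝓝 (z i0), ∀ j, G.Reachable i j → (r j : ℝ) * t + w j ≠ 0 := by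
    rw [eventually_all]
    intro j
    by_cases hj : G.Reachable i j
    · obtain ⟨-, -, -, -, hne, he⟩ := hM j hj
      have : ContinuousAt (fun t : ℝ => (r j : ℝ) * t + w j) (z i0) := by fun_prop
      filter_upwards [this.eventually_ne hne] with t ht _ using ht
    · exact Eventually.of_forall fun t h => absurd h hj
  have hclaim : ∀ i' j' : Fin N, ∀ F : Form, pm_Bd M H F → ∀ᶠ t in 𝓝 (z i0),
      sgR (F.val (z i') (z j')) = sgR (F.val (zt t i') (zt t j')) := by
    intro i' j' F hb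
    by_cases hv : F.val (z i') (z j') = 0
    · -- tight
      have hzero : ∀ᶠ t in 𝓝 (z i0), F.val (zt t i') (zt t j') = 0 := by
        filter_upwards [hden] with t ht
        by_cases hi' : G.Reachable i i'
        · by_cases hj' : G.Reachable i j'
          · have h2 := hB i' j' hi' hj' F hb hv t
            have hdi := ht i' hi'
            have hdj := ht j' hj'
            simp only [hzt, if_pos hi', if_pos hj', Form.val]
            exact MOB_frac _ _ _ _ _ _ _ _ hdi hdj h2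
          · -- `i'` inside, `j'` outside
            have hdet : F.1 * F.2.2.2 - F.2.1 * F.2.2.1 = 0 := by
              by_contra hd
              apply hj'
              have hadj : G.Adj i' j' :=
                ⟨fun h => hj' (h ▸ hi'), F, hb, hv, hd⟩
              exact hi'.trans hadj.reachable
            simp only [hzt, if_neg hj']
            exact pm_key1 hb hv hdet (hA i' hi') _
        · by_cases hj' : G.Reachable i j'
          · have hdet : F.1 * F.2.2.2 - F.2.1 * F.2.2.1 = 0 := by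
              by_contra hd
              apply hi'
              have hadj : G.Adj i' j' :=
                ⟨fun h => hi' (h ▸ hj'), F, hb, hv, hd⟩
              exact hj'.trans hadj.symm.reachable
            simp only [hzt, if_neg hi']
            exact pm_key2 hb hv hdet (hA j' hj') _
          · simp only [hzt, if_neg hi', if_neg hj']
            exact hv
      filter_upwards [hzero] with t ht
      rw [hv, ht]
    · have hcf : ContinuousAt (fun t => F.val (zt t i') (zt t j')) (z i0) := by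
        have hi := hcont i'
        have hj := hcont j'
        unfold Form.val
        exact ((((continuousAt_const.mul hi).mul hj).add (continuousAt_const.mul hi)).add
          (continuousAt_const.mul hj)).add continuousAt_const
      have h2 := MOB_sg_ev hcf (by simp only [hzt0]; exact hv)
      simp only [hzt0] at h2
      exact h2
  have hall : ∀ᶠ t in 𝓝 (z i0), ∀ i' j' : Fin N, ∀ F ∈ {F : Form | pm_Bd M H F},
      sgR (F.val (z i') (z j')) = sgR (F.val (zt t i') (zt t j')) := by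
    rw [eventually_all]
    intro i'
    rw [eventually_all]
    intro j'
    rw [eventually_all_finite (pm_fin M H)]
    intro F hF
    exact hclaim i' j' F hF
  have hlt : ∃ t, t < z i0 ∧ ∀ i' j' : Fin N, ∀ F ∈ {F : Form | pm_Bd M H F},
      sgR (F.val (z i') (z j')) = sgR (F.val (zt t i') (zt t j')) := by
    have h2 : ∀ᶠ t in 𝓝[<] (z i0), ∀ i' j' : Fin N, ∀ F ∈ {F : Form | pm_Bd M H F},
        sgR (F.val (z i') (z j')) = sgR (F.val (zt t i') (zt t j')) :=
      hall.filter_mono nhdsWithin_le_nhds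
    have h3 : ∀ᶠ t in 𝓝[<] (z i0), t < z i0 := self_mem_nhdsWithin
    obtain ⟨t, ht1, ht2⟩ := (h3.and h2).exists
    exact ⟨t, ht1, ht2⟩
  obtain ⟨t, htlt, ht⟩ := hlt
  have hztK : zt t ∈ K := by
    apply hsign z (zt t) hzK
    intro i' j' F hf1 hf2 hf3 hf4
    exact ht i' j' F ⟨hf1, hf2, hf3, hf4⟩
  have hfin := hmin (zt t) hztK i0 (by
    intro j hj
    simp only [hzt]
    rw [if_neg]
    intro hr
    exact absurd (hleast j hr) (not_le.mpr hj))
  have hval : zt t i0 = t := by
    simp only [hzt, if_pos hi0]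
    obtain ⟨e1, e2, e3, e4⟩ := hid i0 rfl
    rw [e1, e2, e3, e4]
    push_cast
    ring
  rw [hval] at hfin
  linarith

end Pool.Agent.H371R3.BE
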