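import Pool.Agent.H371R3.BE.Spec
import Pool.Agent.H612.BB.T_PO1

/-!
# PO: the verifier is polynomial-time computable
-/

set_option autoImplicit false

namespace Pool.Agent.H371R3.BE

open H612BB Pool.Agent.NPC Polynomial

section

variable {α : Type} [TEnc α]

attribute [fun_prop] Pool.Agent.NPC.Poly.optGetD

theorem po_look {C : α → Cert} {i : α → ℕ} (hC : Pool.Agent.NPC.Poly C)
    (hi : Pool.Agent.NPC.Poly i) : Pool.Agent.NPC.Poly (fun a => look (C a) (i a)) := by
  unfold look
  fun_prop

attribute [fun_prop] po_look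

attribute [local irreducible] look fsg

theorem po_litB {C : α → Cert} {l : α → BLit} (hC : Pool.Agent.NPC.Poly C)
    (hl : Pool.Agent.NPC.Poly l) : Pool.Agent.NPC.Poly (fun a => litB (C a) (l a)) := by
  unfold litB
  fun_prop

end

attribute [fun_prop] po_litB

attribute [local irreducible] litB

theorem t_PO : S_PO := by
  unfold S_PO
  have hz : Pool.Agent.NPC.Poly (fun z : Inst × Cert => z.1) := by fun_prop
  have hc : Pool.Agent.NPC.Poly (fun z : Inst × Cert => z.2) := by fun_prop
  have h1 : Pool.Agent.NPC.Poly (fun z : Inst × Cert =>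
      z.2.all (fun p => !decide (p.2.2.2 = 0))) := by
    fun_prop
  have h3 : Pool.Agent.NPC.Poly (fun z : (Inst × Cert) × List BLit =>
      z.2.any (fun l => litB z.1.2 l)) := by
    refine Pool.Agent.NPC.Poly.any (p := fun (z : (Inst × Cert) × List BLit) l => litB z.1.2 l)
      (by fun_prop) ?_
    exact po_litB (C := fun q : ((Inst × Cert) × List BLit) × BLit => q.1.1.2)
      (l := fun q => q.2) (by fun_prop) (by fun_prop)
  have h2 : Pool.Agent.NPC.Poly (fun z : Inst × Cert =>
      z.1.all (fun c => c.any (fun l => litB z.2 l))) :=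
    Pool.Agent.NPC.Poly.all (p := fun (z : Inst × Cert) (c : List BLit) =>
      c.any (fun l => litB z.2 l)) hz h3
  exact (h1.and h2).congr fun a => rfl

end Pool.Agent.H371R3.BE
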