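import Pool.Agent.H371R3.BE.Spec

/-!
# PS: the computed sign is constant for large parameters
-/

set_option autoImplicit false

namespace Pool.Agent.H371R3.BE

open H612BB Pool.Agent.NPC Polynomial

theorem ps_mul {P Q : ℤ[X]} {p q : ℤ} (hp : l1 P ≤ p) (hq : l1 Q ≤ q) : l1 (P * Q) ≤ p * q :=
  (l1_mul P Q).trans (mul_le_mul hp hq (l1_nonneg Q) ((l1_nonneg P).trans hp))

theorem ps_add {P Q : ℤ[X]} {p q : ℤ} (hp : l1 P ≤ p) (hq : l1 Q ≤ q) : l1 (P + Q) ≤ p + q :=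
  (l1_add P Q).trans (add_le_add hp hq)

theorem ps_C {a h : ℤ} (ha : |a| ≤ h) : l1 (C a) ≤ h := by rw [l1_C]; exact ha

theorem ps_sign_le (a : ℤ) : |Int.sign a| ≤ 1 := by
  rcases lt_trichotomy a 0 with h | h | h
  · rw [Int.sign_eq_neg_one_of_neg h]; norm_num
  · rw [h]; norm_num
  · rw [Int.sign_eq_one_of_pos h]; norm_num

theorem ps_mul_abs (a : ℤ) : a * |a| = Int.sign a * a ^ 2 := by
  rcases lt_trichotomy a 0 with h | h | h
  · rw [Int.sign_eq_neg_one_of_neg h, abs_of_neg h]; ring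
  · rw [h]; simp
  · rw [Int.sign_eq_one_of_pos h, abs_of_pos h]; ring

theorem ps_nonneg {P : ℤ[X]} {M M' : ℤ} (h : l1 P < M) (h' : l1 P < M') (h0 : 0 ≤ P.eval M) :
    0 ≤ P.eval M' := by
  have h1 := sign_eval h h'
  by_contra h2
  push Not at h2
  rw [Int.sign_eq_neg_one_of_neg h2] at h1
  rcases h0.lt_or_eq with h3 | h3
  · rw [Int.sign_eq_one_of_pos h3] at h1
    norm_num at h1
  · rw [← h3] at h1
    norm_num at h1

theorem ps_ne {P : ℤ[X]} {M M' : ℤ} (h : l1 P < M) (h' : l1 P < M') (h0 : P.eval M ≠ 0) :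
    P.eval M' ≠ 0 := by
  intro h2
  have h1 := sign_eval h h'
  rw [h2, Int.sign_zero, Int.sign_eq_zero_iff_zero] at h1
  exact h0 h1

/-- the sign of `x + y √d` -/
theorem ps_sg1 {P Q D : ℤ[X]} {M M' x y d : ℤ} (hD : 0 ≤ D.eval M) (hD' : 0 ≤ D.eval M')
    (hP : l1 P ≤ x) (hQ : l1 Q ≤ y) (hDl : l1 D ≤ d) (h1 : x < M) (h1' : x < M') (h2 : y < M)
    (h2' : y < M') (h3 : x ^ 2 + y ^ 2 * d < M) (h3' : x ^ 2 + y ^ 2 * d < M') :
    sg1 (P.eval M) (Q.eval M) (D.eval M).toNat = sg1 (P.eval M') (Q.eval M') (D.eval M').toNat := by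
  have e1 : Int.sign (P.eval M) = Int.sign (P.eval M') :=
    sign_eval (hP.trans_lt h1) (hP.trans_lt h1')
  have e2 : Int.sign (Q.eval M) = Int.sign (Q.eval M') :=
    sign_eval (hQ.trans_lt h2) (hQ.trans_lt h2')
  set σ := Int.sign (P.eval M) with hσ
  set τ := Int.sign (Q.eval M) with hτ
  set R : ℤ[X] := C σ * (P * P) + C τ * (Q * Q * D) with hR
  have hev : ∀ t : ℤ, R.eval t = σ * (P.eval t) ^ 2 + τ * (Q.eval t) ^ 2 * D.eval t := by
    intro t
    rw [hR]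
    simp only [eval_add, eval_mul, eval_C]
    ring
  have hRl : l1 R ≤ x ^ 2 + y ^ 2 * d := by
    have k1 : l1 (C σ * (P * P)) ≤ 1 * (x * x) := ps_mul (ps_C (ps_sign_le _)) (ps_mul hP hP)
    have k2 : l1 (C τ * (Q * Q * D)) ≤ 1 * (y * y * d) :=
      ps_mul (ps_C (ps_sign_le _)) (ps_mul (ps_mul hQ hQ) hDl)
    have k3 := ps_add k1 k2
    rw [hR]
    refine k3.trans (le_of_eq ?_)
    ring
  have e3 := sign_eval (hRl.trans_lt h3) (hRl.trans_lt h3')
  unfold sg1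
  rw [Int.toNat_of_nonneg hD, Int.toNat_of_nonneg hD', ps_mul_abs, ps_mul_abs, ps_mul_abs,
    ps_mul_abs, ← e1, ← e2, ← hσ, ← hτ, ← hev, ← hev]
  exact e3

theorem ps_sg1_le (x y : ℤ) (d : ℕ) : |sg1 x y d| ≤ 1 := ps_sign_le _

theorem t_PS : S_PS := by
  intro k B H M M' α β F hB hH hα hβ hF h0 h0' hM hM'
  obtain ⟨⟨-, hP⟩, ⟨-, hD⟩, -, hR⟩ := hα
  obtain ⟨⟨-, hP'⟩, ⟨-, hD'⟩, -, hR'⟩ := hβ
  obtain ⟨hF1, hF2, hF3, hF4⟩ := hF
  obtain ⟨P, D, R⟩ := α
  obtain ⟨P', D', R'⟩ := β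
  obtain ⟨A, A2, A3, A4⟩ := F
  simp only at hP hD hR hP' hD' hR' hF1 hF2 hF3 hF4 h0 h0'
  -- numerical facts
  have hB0 : 0 < B := by linarith
  have hH0 : 0 < H := by linarith
  set T : ℤ := H ^ 4 * B ^ 8 with hT
  have hT1 : 1 ≤ T := one_le_mul_of_one_le_of_one_le (one_le_pow₀ hH) (one_le_pow₀ hB)
  have hmono : ∀ i j : ℕ, i ≤ 4 → j ≤ 8 → H ^ i * B ^ j ≤ T := by
    intro i j hi hj
    exact mul_le_mul (pow_le_pow_right₀ hH hi) (pow_le_pow_right₀ hB hj) (by positivity)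
      (by positivity)
  have hM2 : 2048 * T ≤ M := by rw [hT]; linarith
  have hM2' : 2048 * T ≤ M' := by rw [hT]; linarith
  have hBT : B ≤ T := by simpa using hmono 0 1 (by norm_num) (by norm_num)
  have hHT : H ≤ T := by simpa using hmono 1 0 (by norm_num) (by norm_num)
  have hBM : B < M := by linarith
  have hBM' : B < M' := by linarith
  have n0 : 0 ≤ D.eval M' := ps_nonneg (hD.trans_lt hBM) (hD.trans_lt hBM') h0
  have n0' : 0 ≤ D'.eval M' := ps_nonneg (hD'.trans_lt hBM) (hD'.trans_lt hBM') h0'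
  refine ⟨n0, fun h => ps_ne (hR.trans_lt hBM) (hR.trans_lt hBM') h, ?_⟩
  -- the polynomials
  set a0 : ℤ[X] := C A * P * P' + C A2 * P * R' + C A3 * P' * R + C A4 * R * R' with ha0
  set b0 : ℤ[X] := C A * P' + C A2 * R' with hb0
  set c0 : ℤ[X] := C A * P + C A3 * R with hc0
  have la : l1 a0 ≤ 4 * H * B ^ 2 := by
    have := ps_add (ps_add (ps_add (ps_mul (ps_mul (ps_C hF1) hP) hP')
      (ps_mul (ps_mul (ps_C hF2) hP) hR')) (ps_mul (ps_mul (ps_C hF3) hP') hR))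
      (ps_mul (ps_mul (ps_C hF4) hR) hR')
    rw [ha0]
    refine this.trans (le_of_eq ?_)
    ring
  have lb : l1 b0 ≤ 2 * H * B := by
    have := ps_add (ps_mul (ps_C hF1) hP') (ps_mul (ps_C hF2) hR')
    rw [hb0]
    refine this.trans (le_of_eq ?_)
    ring
  have lc : l1 c0 ≤ 2 * H * B := by
    have := ps_add (ps_mul (ps_C hF1) hP) (ps_mul (ps_C hF3) hR)
    rw [hc0]
    refine this.trans (le_of_eq ?_)
    ring
  have le' : l1 (C A) ≤ H := ps_C hF1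
  have ea : ∀ t, a0.eval t = A * P.eval t * P'.eval t + A2 * P.eval t * R'.eval t +
      A3 * P'.eval t * R.eval t + A4 * R.eval t * R'.eval t := by
    intro t; rw [ha0]; simp only [eval_add, eval_mul, eval_C]
  have eb : ∀ t, b0.eval t = A * P'.eval t + A2 * R'.eval t := by
    intro t; rw [hb0]; simp only [eval_add, eval_mul, eval_C]
  have ec : ∀ t, c0.eval t = A * P.eval t + A3 * R.eval t := by
    intro t; rw [hc0]; simp only [eval_add, eval_mul, eval_C]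
  have q1 := hmono 2 4 (by norm_num) (by norm_num)
  have q2 := hmono 2 3 (by norm_num) (by norm_num)
  have q3 := hmono 1 2 (by norm_num) (by norm_num)
  have q4 := hmono 1 1 (by norm_num) (by norm_num)
  have q5 := hmono 4 8 (by norm_num) (by norm_num)
  have q6 := hmono 4 7 (by norm_num) (by norm_num)
  have q7 := hmono 2 1 (by norm_num) (by norm_num)
  have s1 : sg1 (a0.eval M) (b0.eval M) (D.eval M).toNat =
      sg1 (a0.eval M') (b0.eval M') (D.eval M').toNat := by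
    refine ps_sg1 h0 n0 la lb hD ?_ ?_ ?_ ?_ ?_ ?_ <;> nlinarith
  have s2 : sg1 (c0.eval M) ((C A).eval M) (D.eval M).toNat =
      sg1 (c0.eval M') ((C A).eval M') (D.eval M').toNat := by
    refine ps_sg1 h0 n0 lc le' hD ?_ ?_ ?_ ?_ ?_ ?_ <;> nlinarith [hmono 2 2 (by norm_num) (by norm_num)]
  set σ := sg1 (a0.eval M) (b0.eval M) (D.eval M).toNat with hσ
  set τ := sg1 (c0.eval M) ((C A).eval M) (D.eval M).toNat with hτ
  have lσ : |σ| ≤ 1 := ps_sg1_le _ _ _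
  have lτ : |τ| ≤ 1 := ps_sg1_le _ _ _
  set X1 : ℤ[X] := C σ * (a0 * a0 + b0 * b0 * D) + C τ * D' * (c0 * c0 + C A * C A * D) with hX1
  set Y1 : ℤ[X] := C 2 * (C σ * a0 * b0 + C τ * D' * c0 * C A) with hY1
  have lX : l1 X1 ≤ 25 * (H ^ 2 * B ^ 4) := by
    have := ps_add (ps_mul (ps_C lσ) (ps_add (ps_mul la la) (ps_mul (ps_mul lb lb) hD)))
      (ps_mul (ps_mul (ps_C lτ) hD') (ps_add (ps_mul lc lc) (ps_mul (ps_mul le' le') hD)))
    rw [hX1]
    refine this.trans ?_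
    have r1 : H ^ 2 * B ^ 3 ≤ H ^ 2 * B ^ 4 :=
      mul_le_mul_of_nonneg_left (pow_le_pow_right₀ hB (by norm_num)) (by positivity)
    have r2 : H ^ 2 * B ^ 2 ≤ H ^ 2 * B ^ 4 :=
      mul_le_mul_of_nonneg_left (pow_le_pow_right₀ hB (by norm_num)) (by positivity)
    nlinarith
  have lY : l1 Y1 ≤ 20 * (H ^ 2 * B ^ 3) := by
    have := ps_mul (ps_C (le_refl |(2 : ℤ)|)) (ps_add (ps_mul (ps_mul (ps_C lσ) la) lb)
      (ps_mul (ps_mul (ps_mul (ps_C lτ) hD') lc) le'))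
    rw [hY1]
    refine this.trans ?_
    have r2 : H ^ 2 * B ^ 2 ≤ H ^ 2 * B ^ 3 :=
      mul_le_mul_of_nonneg_left (pow_le_pow_right₀ hB (by norm_num)) (by positivity)
    have r3 : |(2 : ℤ)| = 2 := by norm_num
    rw [r3]
    nlinarith
  have s3 : sg1 (X1.eval M) (Y1.eval M) (D.eval M).toNat =
      sg1 (X1.eval M') (Y1.eval M') (D.eval M').toNat := by
    have r1 : (25 * (H ^ 2 * B ^ 4)) ^ 2 + (20 * (H ^ 2 * B ^ 3)) ^ 2 * B =
      625 * (H ^ 4 * B ^ 8) + 400 * (H ^ 4 * B ^ 7) := by ring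
    refine ps_sg1 h0 n0 lX lY hD ?_ ?_ ?_ ?_ ?_ ?_ <;> first | (rw [r1]; linarith) | linarith
  have eX : ∀ t, X1.eval t = σ * (a0.eval t * a0.eval t + b0.eval t * b0.eval t * D.eval t) +
      τ * D'.eval t * (c0.eval t * c0.eval t + A * A * D.eval t) := by
    intro t; rw [hX1]; simp only [eval_add, eval_mul, eval_C]
  have eY : ∀ t, Y1.eval t = 2 * (σ * a0.eval t * b0.eval t + τ * D'.eval t * c0.eval t * A) := by
    intro t; rw [hY1]; simp only [eval_add, eval_mul, eval_C]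
  have g1 : Int.sign (R.eval M) = Int.sign (R.eval M') :=
    sign_eval (hR.trans_lt hBM) (hR.trans_lt hBM')
  have g2 : Int.sign (R'.eval M) = Int.sign (R'.eval M') :=
    sign_eval (hR'.trans_lt hBM) (hR'.trans_lt hBM')
  have key : ∀ t, 0 ≤ D.eval t → 0 ≤ D'.eval t →
      sg1 (a0.eval t) (b0.eval t) (D.eval t).toNat = σ →
      sg1 (c0.eval t) ((C A).eval t) (D.eval t).toNat = τ →
      fsg (PNum.at (P, D, R) t) (PNum.at (P', D', R') t) (A, A2, A3, A4) =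
        Int.sign (R.eval t) * Int.sign (R'.eval t) *
          sg1 (X1.eval t) (Y1.eval t) (D.eval t).toNat := by
    intro t ht ht' h1 h2
    rw [eval_C] at h2
    unfold fsg PNum.at sg2
    simp only
    rw [← ea, ← eb, ← ec, h1, h2, Int.toNat_of_nonneg ht, Int.toNat_of_nonneg ht', ← eX, ← eY]
  rw [key M h0 h0' hσ.symm hτ.symm, key M' n0 n0' s1.symm s2.symm, g1, g2, s3]

end Pool.Agent.H371R3.BE
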