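import Pool.Agent.H371R3.BE.Spec
import Pool.Agent.H612.BB.T_SIZ

/-!
# Task SZ: the certificates have polynomial size (helper959)
-/

set_option autoImplicit false

namespace Pool.Agent.H371R3.BE

open H612BB Pool.Agent.NPC Polynomial

theorem sz_len_le {α : Type} [TEnc α] (l : List α) : l.length ≤ sz l := by
  induction l with
  | nil => simp
  | cons a l ih =>
    rw [sz_list_cons, List.length_cons]
    have := sz_pos a
    omega

theorem sz_abs_le {x : ℤ} {s : ℕ} (h : sz x ≤ s) : |x| ≤ ((2 ^ s : ℕ) : ℤ) := by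
  have h1 := size_natAbs_le_sz x
  have h2 : x.natAbs < 2 ^ s := by
    rw [← Nat.size_le]
    omega
  rw [← Int.natCast_natAbs]
  exact_mod_cast h2.le

theorem sz_W2 (L s : ℕ) (hL : L ≤ s) :
    W2 (2 * L) (2 ^ s) ≤ 2 ^ (5 + 4 * (4 + s) * (128 * s + 64) * (16 * s + 6)) := by
  unfold W2 W1
  have e1 : 16 * 2 ^ s = 2 ^ (4 + s) := by
    rw [pow_add]
    norm_num
  rw [e1, ← pow_mul, ← pow_mul, pow_add]
  refine Nat.mul_le_mul (by norm_num) (Nat.pow_le_pow_right (by norm_num) ?_)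
  have h1 : 64 * (2 * L) + 64 ≤ 128 * s + 64 := by omega
  have h2 : 8 * (2 * L) + 6 ≤ 16 * s + 6 := by omega
  calc (4 + s) * ((64 * (2 * L) + 64) * (8 * (2 * L) + 6) * 4)
      ≤ (4 + s) * ((128 * s + 64) * (16 * s + 6) * 4) :=
        Nat.mul_le_mul_left _ (Nat.mul_le_mul_right _ (Nat.mul_le_mul h1 h2))
    _ = 4 * (4 + s) * (128 * s + 64) * (16 * s + 6) := by ring

theorem t_SZ : S_SZ := by
  refine ⟨2 * X * (X + (3 * (4 * ((5 + 4 * (4 + X) * (128 * X + 64) * (16 * X + 6)) + 1) + 5) + 2)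
    + 1 + 1) + 1, ?_⟩
  intro φ
  have hsz : ∀ c ∈ φ, ∀ l ∈ c, sz l ≤ sz φ := by
    intro c hc l hl
    have h1 := sz_le_of_mem hc
    have h2 := sz_le_of_mem hl
    omega
  refine ⟨2 ^ sz φ, Nat.one_le_two_pow, ?_, ?_⟩
  · intro c hc l hl
    have h1 := hsz c hc l hl
    obtain ⟨⟨i, j⟩, ⟨a, b, d, e⟩, t⟩ := l
    rw [sz_pair, sz_pair, sz_pair, sz_pair, sz_pair, sz_pair] at h1
    have ha : sz a ≤ sz φ := by omega
    have hb : sz b ≤ sz φ := by omega
    have hd : sz d ≤ sz φ := by omega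
    have he : sz e ≤ sz φ := by omega
    exact ⟨sz_abs_le ha, sz_abs_le hb, sz_abs_le hd, sz_abs_le he⟩
  · intro C hC hCp
    simp only [eval_add, eval_mul, eval_X, eval_one, eval_ofNat]
    have hL := sz_len_le φ
    set s : ℕ := sz φ with hs
    set E : ℕ := 5 + 4 * (4 + s) * (128 * s + 64) * (16 * s + 6) with hE
    have hW : W2 (2 * φ.length) (2 ^ s) ≤ 2 ^ E := sz_W2 _ _ hL
    have hp : ∀ p ∈ C, sz p ≤ s + (3 * (4 * (E + 1) + 5) + 2) + 1 := by
      intro p hp
      obtain ⟨h1, c, hc, l, hl, h2⟩ := hCp p hp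
      have e1 := siz_num hW h1
      have e2 := hsz c hc l hl
      have e3 : sz p.1 ≤ s := by
        obtain ⟨⟨i, j⟩, F⟩ := l
        rw [sz_pair, sz_pair] at e2
        rcases h2 with h2 | h2
        · rw [h2]
          simp only
          omega
        · rw [h2]
          simp only
          omega
      have e4 : sz p = sz p.1 + sz p.2 + 1 := sz_pair _ _
      omega
    have h1 := sz_le_length_mul C _ hp
    have h2 : C.length * ((s + (3 * (4 * (E + 1) + 5) + 2) + 1) + 1) ≤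
        (2 * s) * ((s + (3 * (4 * (E + 1) + 5) + 2) + 1) + 1) :=
      Nat.mul_le_mul_right _ (by omega)
    omega

end Pool.Agent.H371R3.BE
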