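import Pool.Agent.H371R3.BE.Lib

/-!
# Statements of the tasks
-/

set_option autoImplicit false

namespace Pool.Agent.H371R3.BE

open H612BB Pool.Agent.NPC Polynomial

/-- MM: composition and inversion of Moebius relations, and transfer of roots -/
def S_MM : Prop :=
  (∀ (M : ℤ) (k k' : ℕ) (h h' : ℤ) (s t u : ℝ), PMob M k h s t → PMob M k' h' t u →
    PMob M (k + k') (2 * h * h') s u) ∧
  (∀ (M : ℤ) (k : ℕ) (h : ℤ) (s t : ℝ), PMob M k h s t → PMob M k h t s) ∧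
  (∀ (M : ℤ) (k l : ℕ) (h B : ℤ) (s t : ℝ), PMob M k h s t → PRoot M l B s →
    PRoot M (2 * k + l) (6 * B * h ^ 2) t)

/-- PM: a nonempty compact set determined by the signs of bilinear forms whose coefficients are
values at `M` of polynomials of degree at most 1 contains a point with such coordinates -/
def S_PM : Prop := ∀ (N : ℕ) (K : Set (Fin N → ℝ)) (M H : ℤ), 1 ≤ H → IsCompact K → K.Nonempty →
  (∀ z z' : Fin N → ℝ, z ∈ K → (∀ (i j : Fin N) (F : Form), PV M 1 H F.1 → PV M 1 H F.2.1 →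
    PV M 1 H F.2.2.1 → PV M 1 H F.2.2.2 →
    sgR (F.val (z i) (z j)) = sgR (F.val (z' i) (z' j))) → z' ∈ K) →
  ∃ z ∈ K, ∀ i, PRoot M (4 * N + 2) ((8 * H) ^ (4 * N + 2)) (z i)

/-- PC: codes of roots -/
def S_PC : Prop := ∀ (M : ℤ) (k : ℕ) (B : ℤ) (z : ℝ), 1 ≤ B → PRoot M k B z →
  ∃ α : PNum, α.Bd (2 * k) (5 * B ^ 2) ∧ (α.at M).2.2 ≠ 0 ∧ 0 ≤ α.2.1.eval M ∧ (α.at M).val = z

/-- PS: the computed sign does not depend on the parameter if it is large -/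
def S_PS : Prop := ∀ (k : ℕ) (B H M M' : ℤ) (α β : PNum) (F : Form), 1 ≤ B → 1 ≤ H →
  α.Bd k B → β.Bd k B → FBd H F → 0 ≤ α.2.1.eval M → 0 ≤ β.2.1.eval M →
  2048 * H ^ 4 * B ^ 8 ≤ M → 2048 * H ^ 4 * B ^ 8 ≤ M' →
  0 ≤ α.2.1.eval M' ∧ ((α.at M).2.2 ≠ 0 → (α.at M').2.2 ≠ 0) ∧
    fsg (α.at M) (β.at M) F = fsg (α.at M') (β.at M') F

/-- BD: sign conditions with a solution in the unit cube have a solution with small codes -/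
def S_BD : Prop := ∀ (N H : ℕ), 1 ≤ H → ∀ Λ : List (Fin N × Fin N × Form × ℤ),
  (∀ l ∈ Λ, FBd H l.2.2.1) → ∀ x : Fin N → ℝ, (∀ i, |x i| ≤ 1) →
  (∀ l ∈ Λ, sgR (l.2.2.1.val (x l.1) (x l.2.1)) = l.2.2.2) →
  ∃ α : Fin N → H612BB.Num, (∀ i, NBd (W1 N H) (α i)) ∧
    ∀ l ∈ Λ, sgR (l.2.2.1.val (α l.1).val (α l.2.1).val) = l.2.2.2

/-- UB: solvable sign conditions have a solution with small codes -/
def S_UB : Prop := ∀ (N H : ℕ), 1 ≤ H → ∀ Λ : List (Fin N × Fin N × Form × ℤ),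
  (∀ l ∈ Λ, FBd H l.2.2.1) → ∀ x : Fin N → ℝ,
  (∀ l ∈ Λ, sgR (l.2.2.1.val (x l.1) (x l.2.1)) = l.2.2.2) →
  ∃ α : Fin N → H612BB.Num, (∀ i, NBd (W2 N H) (α i)) ∧
    ∀ l ∈ Λ, sgR (l.2.2.1.val (α l.1).val (α l.2.1).val) = l.2.2.2

/-- CM: completeness of the verifier -/
def S_CM : Prop := ∀ (φ : Inst) (H : ℕ), 1 ≤ H → (∀ c ∈ φ, ∀ l ∈ c, FBd H l.2.1) → BSat φ →
  ∃ C : Cert, verB (φ, C) = true ∧ C.length ≤ 2 * φ.length ∧
    ∀ p ∈ C, NBd (W2 (2 * φ.length) H) p.2 ∧ ∃ c ∈ φ, ∃ l ∈ c, p.1 = l.1.1 ∨ p.1 = l.1.2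

/-- SN: soundness of the verifier -/
def S_SN : Prop := ∀ (φ : Inst) (C : Cert), verB (φ, C) = true → BSat φ

/-- SZ: the certificates have polynomial size -/
def S_SZ : Prop := ∃ q : Polynomial ℕ, ∀ φ : Inst, ∃ H : ℕ, 1 ≤ H ∧
  (∀ c ∈ φ, ∀ l ∈ c, FBd H l.2.1) ∧ ∀ C : Cert, C.length ≤ 2 * φ.length →
    (∀ p ∈ C, NBd (W2 (2 * φ.length) H) p.2 ∧ ∃ c ∈ φ, ∃ l ∈ c, p.1 = l.1.1 ∨ p.1 = l.1.2) →
    sz C ≤ q.eval (sz φ)

/-- PO: the verifier is polynomial-time computable -/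
def S_PO : Prop := Poly verB

/-- HD: hardness -/
def S_HD : Prop := NPHardP BSat

/-! ### assembly -/

theorem inNP_of (cm : S_CM) (sn : S_SN) (sz' : S_SZ) (po : S_PO) : InNPP BSat := by
  obtain ⟨q, hq⟩ := sz'
  refine inNPP_of po q fun φ => ⟨fun h => ?_, ?_⟩
  · obtain ⟨H, hH, hF, hC⟩ := hq φ
    obtain ⟨C, h1, h2, h3⟩ := cm φ H hH hF h
    exact ⟨C, hC C h2 h3, h1⟩
  · rintro ⟨C, -, h⟩
    exact sn φ C h

end Pool.Agent.H371R3.BE
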