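import Pool.Agent.H371R3.BE.Spec
import Pool.Agent.H612.BB.T_SGN

/-! Task UB of helper371 (helper814): unbounded variables. -/

set_option autoImplicit false

namespace Pool.Agent.H371R3.BE

open H612BB Pool.Agent.NPC Polynomial

/-- transformation of the first variable -/
def ub_T1 (c : Bool) (F : Form) : Form := if c then (F.2.2.1, F.2.2.2, F.1, F.2.1) else F

/-- transformation of the second variable -/
def ub_T2 (c : Bool) (F : Form) : Form := if c then (F.2.1, F.1, F.2.2.2, F.2.2.1) else F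

/-- inversion -/
noncomputable def ub_iv (c : Bool) (u : ℝ) : ℝ := if c then u⁻¹ else u

/-- multiplier -/
noncomputable def ub_m (c : Bool) (u : ℝ) : ℝ := if c then u else 1

theorem ub_val (c c' : Bool) (F : Form) (u u' : ℝ) (h : c = true → u ≠ 0)
    (h' : c' = true → u' ≠ 0) : (ub_T2 c' (ub_T1 c F)).val u u' =
      ub_m c u * ub_m c' u' * F.val (ub_iv c u) (ub_iv c' u') := by
  cases c
  · cases c'
    · simp [ub_T1, ub_T2, ub_m, ub_iv]
    · have h2 := h' rfl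
      simp only [ub_T1, ub_T2, ub_m, ub_iv, Form.val, if_true, Bool.false_eq_true, if_false]
      field_simp
      ring
  · have h1 := h rfl
    cases c'
    · simp only [ub_T1, ub_T2, ub_m, ub_iv, Form.val, if_true, Bool.false_eq_true, if_false]
      field_simp
      ring
    · have h2 := h' rfl
      simp only [ub_T1, ub_T2, ub_m, ub_iv, Form.val, if_true]
      field_simp
      ring

theorem ub_FBd {H : ℤ} {F : Form} (c c' : Bool) (h : FBd H F) : FBd H (ub_T2 c' (ub_T1 c F)) := by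
  obtain ⟨h1, h2, h3, h4⟩ := h
  cases c <;> cases c' <;> simp only [ub_T1, ub_T2, if_true, Bool.false_eq_true, if_false]
  · exact ⟨h1, h2, h3, h4⟩
  · exact ⟨h2, h1, h4, h3⟩
  · exact ⟨h3, h4, h1, h2⟩
  · exact ⟨h4, h3, h2, h1⟩

theorem ub_sg_ne {u : ℝ} (h : u ≠ 0) : sgR u * sgR u = 1 := by
  unfold sgR
  rcases lt_trichotomy u 0 with h1 | h1 | h1
  · rw [if_neg (by linarith), if_pos h1]; norm_num
  · exact absurd h1 h
  · rw [if_pos h1]; norm_num

theorem ub_sg_zero_of {u : ℝ} (h : sgR u ≠ 0) : u ≠ 0 := by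
  rintro rfl
  apply h
  unfold sgR
  simp

theorem ub_W1 (N H : ℕ) (hH : 1 ≤ H) : 1 ≤ W1 N H := Nat.one_le_pow _ _ (by omega)

/-- the code of the inverse -/
theorem ub_inv (cod : S_COD) (W : ℕ) (hW : 1 ≤ W) (α : H612BB.Num) (hα : NBd W α)
    (h0 : α.val ≠ 0) : ∃ β : H612BB.Num, NBd (20 * W ^ 4) β ∧ β.val = α.val⁻¹ := by
  obtain ⟨h1, h2, h3, h4⟩ := hα
  have hr : (α.2.2 : ℝ) ≠ 0 := by exact_mod_cast h4
  have hD : (0 : ℝ) ≤ (α.2.1 : ℝ) := Nat.cast_nonneg _
  have hWz : (1 : ℤ) ≤ W := by exact_mod_cast hW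
  have h2z : (α.2.1 : ℤ) ≤ W := by exact_mod_cast h2
  have hDz : (0 : ℤ) ≤ (α.2.1 : ℤ) := Int.natCast_nonneg _
  have hp2 : α.1 ^ 2 ≤ (W : ℤ) ^ 2 := sq_le_sq' (by linarith [(abs_le.1 h1).1]) (abs_le.1 h1).2
  have hr2 : α.2.2 ^ 2 ≤ (W : ℤ) ^ 2 := sq_le_sq' (by linarith [(abs_le.1 h3).1]) (abs_le.1 h3).2
  have hWW : (W : ℤ) ≤ (W : ℤ) ^ 2 := by nlinarith
  have heq : ((α.1 : ℝ) ^ 2 - α.2.1) = (α.2.2 : ℝ) * α.val * (2 * α.1 - α.2.2 * α.val) := by
    have h5 : (α.2.2 : ℝ) * α.val = α.1 + √(α.2.1 : ℝ) := by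
      unfold H612BB.Num.val; field_simp
    have h6 : √(α.2.1 : ℝ) ^ 2 = α.2.1 := Real.sq_sqrt hD
    have h7 : √(α.2.1 : ℝ) = (α.2.2 : ℝ) * α.val - α.1 := by linarith
    rw [h7] at h6
    linear_combination h6
  obtain ⟨β, b1, b2, b3, b4, b5⟩ := cod (α.val⁻¹) (α.1 ^ 2 - α.2.1) (-2 * α.2.2 * α.1) (α.2.2 ^ 2)
    (2 * (W : ℤ) ^ 2) (Or.inr (Or.inr (pow_ne_zero 2 h4)))
    (by rw [abs_le]; constructor <;> nlinarith [sq_nonneg α.1])
    (by
      have e1 : |(-2 * α.2.2 * α.1 : ℤ)| = 2 * (|α.2.2| * |α.1|) := by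
        rw [abs_mul, abs_mul]; norm_num; ring
      rw [e1]
      have e2 : |α.2.2| * |α.1| ≤ (W : ℤ) * W :=
        mul_le_mul h3 h1 (abs_nonneg _) (by linarith)
      nlinarith)
    (by rw [abs_of_nonneg (sq_nonneg _)]; nlinarith)
    (by
      push_cast
      rw [heq]
      field_simp
      ring)
  have hW4 : (W : ℤ) ^ 2 ≤ (W : ℤ) ^ 4 := by
    have : (1 : ℤ) ≤ (W : ℤ) ^ 2 := by nlinarith
    nlinarith
  refine ⟨β, ⟨?_, ?_, ?_, b1⟩, b2⟩
  · push_cast
    have : (0 : ℤ) ≤ (W : ℤ) ^ 4 := by positivity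
    linarith
  · have e1 : (β.2.1 : ℤ) ≤ 20 * (W : ℤ) ^ 4 := by
      calc (β.2.1 : ℤ) ≤ 5 * (2 * (W : ℤ) ^ 2) ^ 2 := b4
        _ = 20 * (W : ℤ) ^ 4 := by ring
    exact_mod_cast e1
  · push_cast
    have : (0 : ℤ) ≤ (W : ℤ) ^ 4 := by positivity
    linarith

theorem t_UB (bd : S_BD) (cod : S_COD) : S_UB := by
  intro N H hH Λ hΛ x hx
  classical
  -- flags
  let c : Fin N → Bool := fun i => decide (¬ |x i| ≤ 1)
  let t : Fin N → ℝ := fun i => ub_iv (c i) (x i)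
  have hx0 : ∀ i, c i = true → x i ≠ 0 := by
    intro i hi h0
    have : ¬ |x i| ≤ 1 := of_decide_eq_true hi
    rw [h0, abs_zero] at this
    exact this zero_le_one
  have ht0 : ∀ i, c i = true → t i ≠ 0 := by
    intro i hi
    simp only [t, ub_iv, hi, if_true]
    exact inv_ne_zero (hx0 i hi)
  have ht1 : ∀ i, |t i| ≤ 1 := by
    intro i
    by_cases h : |x i| ≤ 1
    · have hc : c i = false := by simp only [c]; simp [h]
      simp only [t, ub_iv, hc, Bool.false_eq_true, if_false]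
      exact h
    · have hc : c i = true := by simp only [c]; simp only [h, not_false_eq_true, decide_true]
      simp only [t, ub_iv, hc, if_true]
      rw [abs_inv]
      exact inv_le_one_of_one_le₀ (not_le.1 h).le
  have hiv : ∀ i, ub_iv (c i) (t i) = x i := by
    intro i
    simp only [t]
    cases c i <;> simp [ub_iv]
  let σ : Fin N → ℤ := fun i => sgR (ub_m (c i) (t i))
  have hσ : ∀ i, σ i * σ i = 1 := by
    intro i
    apply ub_sg_ne
    by_cases h : c i = true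
    · simp only [ub_m, h, if_true]; exact ht0 i h
    · simp only [ub_m, h, Bool.false_eq_true, if_false]; exact one_ne_zero
  -- the new list
  let Λ' : List (Fin N × Fin N × Form × ℤ) :=
    Λ.map (fun l => (l.1, l.2.1, ub_T2 (c l.2.1) (ub_T1 (c l.1) l.2.2.1),
      σ l.1 * σ l.2.1 * l.2.2.2)) ++
    ((List.finRange N).filter (fun i => c i)).map (fun i => (i, i, ((0, 1, 0, 0) : Form), sgR (t i)))
  have hH' : (1 : ℤ) ≤ H := by exact_mod_cast hH
  obtain ⟨α, hα, hs⟩ := bd N H hH Λ' (by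
      intro l hl
      rw [List.mem_append, List.mem_map, List.mem_map] at hl
      rcases hl with ⟨l0, h0, rfl⟩ | ⟨i, _, rfl⟩
      · exact ub_FBd _ _ (hΛ l0 h0)
      · refine ⟨?_, ?_, ?_, ?_⟩ <;> simp <;> omega) t ht1 (by
      intro l hl
      rw [List.mem_append, List.mem_map, List.mem_map] at hl
      rcases hl with ⟨l0, h0, rfl⟩ | ⟨i, _, rfl⟩
      · simp only
        rw [ub_val _ _ _ _ _ (ht0 _) (ht0 _), hiv, hiv, sgR_mul, sgR_mul, hx l0 h0]
      · simp [Form.val])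
  have hu : ∀ i, c i = true → sgR (α i).val = sgR (t i) := by
    intro i hi
    have h1 : (i, i, ((0, 1, 0, 0) : Form), sgR (t i)) ∈ Λ' := by
      rw [List.mem_append]
      right
      rw [List.mem_map]
      exact ⟨i, by rw [List.mem_filter]; exact ⟨List.mem_finRange i, hi⟩, rfl⟩
    have h2 := hs _ h1
    simpa [Form.val] using h2
  have hu0 : ∀ i, c i = true → (α i).val ≠ 0 := by
    intro i hi
    apply ub_sg_zero_of
    rw [hu i hi]
    intro h
    have := ub_sg_ne (ht0 i hi)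
    rw [h] at this
    exact absurd this (by norm_num)
  have hW := ub_W1 N H hH
  have hβ : ∀ i, ∃ β : H612BB.Num, NBd (W2 N H) β ∧ β.val = ub_iv (c i) (α i).val := by
    intro i
    by_cases h : c i = true
    · obtain ⟨β, h1, h2⟩ := ub_inv cod (W1 N H) hW (α i) (hα i) (hu0 i h)
      refine ⟨β, h1, ?_⟩
      rw [h2, h]; simp [ub_iv]
    · refine ⟨α i, ?_, ?_⟩
      · have hle : W1 N H ≤ W2 N H := by
          unfold W2
          have : W1 N H ^ 1 ≤ W1 N H ^ 4 := Nat.pow_le_pow_right hW (by norm_num)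
          rw [pow_one] at this
          omega
        have hlez : ((W1 N H : ℕ) : ℤ) ≤ ((W2 N H : ℕ) : ℤ) := by exact_mod_cast hle
        obtain ⟨h1, h2, h3, h4⟩ := hα i
        exact ⟨h1.trans hlez, h2.trans hle, h3.trans hlez, h4⟩
      · have hc : c i = false := by simpa using h
        rw [hc]; simp [ub_iv]
  choose β hβ1 hβ2 using hβ
  refine ⟨β, hβ1, ?_⟩
  intro l hl
  have h1 : (l.1, l.2.1, ub_T2 (c l.2.1) (ub_T1 (c l.1) l.2.2.1), σ l.1 * σ l.2.1 * l.2.2.2) ∈ Λ' := by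
    rw [List.mem_append]
    left
    rw [List.mem_map]
    exact ⟨l, hl, rfl⟩
  have h2 := hs _ h1
  rw [ub_val _ _ _ _ _ (hu0 _) (hu0 _), sgR_mul, sgR_mul] at h2
  have hm : ∀ i, sgR (ub_m (c i) (α i).val) = σ i := by
    intro i
    by_cases h : c i = true
    · simp only [σ, ub_m, h, if_true]; exact hu i h
    · simp only [σ, ub_m, h, Bool.false_eq_true, if_false]
  rw [hm, hm] at h2
  rw [hβ2, hβ2]
  have e1 := hσ l.1
  have e2 := hσ l.2.1
  have h3 := congrArg (fun z => σ l.1 * σ l.2.1 * z) h2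
  simp only at h3
  calc sgR (l.2.2.1.val (ub_iv (c l.1) (α l.1).val) (ub_iv (c l.2.1) (α l.2.1).val))
      = (σ l.1 * σ l.1) * (σ l.2.1 * σ l.2.1) *
        sgR (l.2.2.1.val (ub_iv (c l.1) (α l.1).val) (ub_iv (c l.2.1) (α l.2.1).val)) := by
        rw [e1, e2]; ring
    _ = σ l.1 * σ l.2.1 * (σ l.1 * σ l.2.1 *
        sgR (l.2.2.1.val (ub_iv (c l.1) (α l.1).val) (ub_iv (c l.2.1) (α l.2.1).val))) := by ring
    _ = σ l.1 * σ l.2.1 * (σ l.1 * σ l.2.1 * l.2.2.2) := h3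
    _ = (σ l.1 * σ l.1) * (σ l.2.1 * σ l.2.1) * l.2.2.2 := by ring
    _ = l.2.2.2 := by rw [e1, e2]; ring

end Pool.Agent.H371R3.BE
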